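import Mathlib
import Pool.Agent.Lib.LogCh.EDefs
import Pool.Agent.Lib.MP_0bb3d8_nt.HohDefs

/-!
# Theorem T, group L: mean values of prime sums over primitive characters of small conductor

Final statement: `LFIN` (module `LFin`). Weight `φ (log (n / X))` with `Hoh.Bump φ` (smooth, support
in `[1/20, 19/20]`, so `X < n < 3 X`). Vaughan's identity (`LVau`), sums of type I by partial
summation (`LPar`, `LVar`, `LTypI`), sums of type II by the multiplicative large sieve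
(`LogCh.MLSp`) after separation of the variables with `Hoh.kern_inversion` (`LSep`, `LTau`,
`LTypII`).
-/

set_option autoImplicit false

namespace Pool.PrT

open Real

/-- sum of `F r ψ` over the primitive characters `ψ` of conductor `2 ≤ r ≤ R` -/
noncomputable def PS (R : ℕ) (F : ∀ r : ℕ, DirichletCharacter ℂ r → ℝ) : ℝ :=
  open Classical in
  ∑ r ∈ Finset.Icc 2 R, ∑ ψ : DirichletCharacter ℂ r, if ψ.IsPrimitive then F r ψ else 0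

/-- the smooth weight at `n`: `φ (log (n / X))` -/
noncomputable def wt (φ : ℝ → ℝ) (X : ℝ) (n : ℕ) : ℝ := φ (Real.log ((n : ℝ) / X))

/-- coefficients of the type II sums: `∑_{b ∣ m, b > V} μ(b)` -/
noncomputable def aV (V m : ℕ) : ℝ := ∑ b ∈ m.divisors.filter (fun b => V < b), (ArithmeticFunction.moebius b : ℝ)

/-- coefficients of the second type I sum: `∑_{b c = d, b ≤ V, c ≤ U} μ(b) Λ(c)` -/
noncomputable def cUV (U V d : ℕ) : ℝ :=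
  ∑ p ∈ d.divisorsAntidiagonal.filter (fun p => p.1 ≤ V ∧ p.2 ≤ U),
    (ArithmeticFunction.moebius p.1 : ℝ) * ArithmeticFunction.vonMangoldt p.2

/-! ## statements of the modules -/

/-- **LVau**: Vaughan's identity. In the ring `ArithmeticFunction ℝ` (or `ℂ`) with `μ = μ₁ + μ₂`
(`μ₁` = part `≤ V`), `Λ = Λ₁ + Λ₂` (`Λ₁` = part `≤ U`), from `Λ * ζ = log`, `μ * ζ = 1`:
`Λ = Λ₁ + μ₁ * log - (μ₁ * Λ₁) * ζ + (μ₂ * ζ) * Λ₂`. -/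
def VauStmt : Prop := ∀ (U V N : ℕ) (f : ℕ → ℂ), (∀ n, N < n → f n = 0) →
  ∑ n ∈ Finset.Icc 1 N, (ArithmeticFunction.vonMangoldt n : ℂ) * f n =
    ∑ n ∈ Finset.Icc 1 U, (ArithmeticFunction.vonMangoldt n : ℂ) * f n
    + ∑ b ∈ Finset.Icc 1 V, (ArithmeticFunction.moebius b : ℂ) *
        ∑ m ∈ Finset.Icc 1 N, (Real.log m : ℂ) * f (b * m)
    - ∑ d ∈ Finset.Icc 1 (U * V), (cUV U V d : ℂ) * ∑ m ∈ Finset.Icc 1 N, f (d * m)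
    + ∑ m ∈ Finset.Ioc V N, ∑ c ∈ Finset.Ioc U N,
        (aV V m : ℂ) * (ArithmeticFunction.vonMangoldt c : ℂ) * f (m * c)

/-- **LPar**: partial summation against a primitive character of conductor `≥ 2`. -/
def ParStmt : Prop := ∀ (r : ℕ) (ψ : DirichletCharacter ℂ r), 2 ≤ r → ψ.IsPrimitive →
  ∀ (N : ℕ) (g : ℕ → ℝ), ‖∑ m ∈ Finset.Icc 1 N, (g m : ℂ) * ψ ((m : ℕ) : ZMod r)‖ ≤
    r * (|g N| + ∑ m ∈ Finset.Ico 1 N, |g (m + 1) - g m|)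

/-- **LVar**: the weights have bounded variation. -/
def VarStmt : Prop := ∀ φ : ℝ → ℝ, Hoh.Bump φ → ∃ C : ℝ, 0 < C ∧ ∀ (X : ℝ) (d N : ℕ), 1 ≤ X →
  1 ≤ d →
  |wt φ X (d * N)| + ∑ m ∈ Finset.Ico 1 N, |wt φ X (d * (m + 1)) - wt φ X (d * m)| ≤ C ∧
  |Real.log N * wt φ X (d * N)| + ∑ m ∈ Finset.Ico 1 N,
    |Real.log ((m + 1 : ℕ) : ℝ) * wt φ X (d * (m + 1)) - Real.log (m : ℝ) * wt φ X (d * m)| ≤
    C * (1 + Real.log X)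

/-- **LTypI** (from `ParStmt`, `VarStmt`): the sums of type I. -/
def TypIStmt : Prop := ∀ φ : ℝ → ℝ, Hoh.Bump φ → ∃ C : ℝ, 0 < C ∧ ∀ (X : ℝ) (R U V N : ℕ), 2 ≤ X →
  (U : ℝ) ≤ X → (V : ℝ) ≤ X →
  PS R (fun r ψ =>
    ‖∑ b ∈ Finset.Icc 1 V, (ArithmeticFunction.moebius b : ℂ) * ∑ m ∈ Finset.Icc 1 N,
      (Real.log m : ℂ) * ((wt φ X (b * m) : ℂ) * ψ ((b * m : ℕ) : ZMod r))‖ +
    ‖∑ d ∈ Finset.Icc 1 (U * V), (cUV U V d : ℂ) * ∑ m ∈ Finset.Icc 1 N,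
      ((wt φ X (d * m) : ℂ) * ψ ((d * m : ℕ) : ZMod r))‖) ≤
    C * (R : ℝ) ^ 3 * ((U : ℝ) + 1) * V * Real.log X

/-- **LSep**: bilinear forms over primitive characters with a smooth weight in the product. -/
def SepStmt : Prop := ∀ φ : ℝ → ℝ, Hoh.Bump φ → ∃ C : ℝ, 0 < C ∧ ∀ (R M N : ℕ) (X : ℝ)
  (a b : ℕ → ℂ), 1 ≤ R → 0 < X →
  PS R (fun r ψ => ‖∑ m ∈ Finset.Icc 1 M, ∑ c ∈ Finset.Icc 1 N,
    a m * b c * ((wt φ X (m * c) : ℂ) * ψ ((m * c : ℕ) : ZMod r))‖) ≤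
    C * √(((M : ℝ) + (R : ℝ) ^ 2) * ∑ m ∈ Finset.Icc 1 M, ‖a m‖ ^ 2) *
      √(((N : ℝ) + (R : ℝ) ^ 2) * ∑ c ∈ Finset.Icc 1 N, ‖b c‖ ^ 2)

/-- **LTau**: mean square of the coefficients. -/
def TauStmt : Prop := ∀ (V M : ℕ), 1 ≤ M →
  ∑ m ∈ Finset.Icc 1 M, (aV V m) ^ 2 ≤ (M : ℝ) * (1 + Real.log M) ^ 3

/-- **LTypII** (from `SepStmt`, `TauStmt`): the sums of type II. -/
def TypIIStmt : Prop := ∀ φ : ℝ → ℝ, Hoh.Bump φ → ∃ C : ℝ, 0 < C ∧ ∀ (X : ℝ) (R U V N : ℕ),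
  2 ≤ X → 1 ≤ R → R ^ 2 ≤ U → R ^ 2 ≤ V → (N : ℝ) ≤ 3 * X →
  PS R (fun r ψ => ‖∑ m ∈ Finset.Ioc V N, ∑ c ∈ Finset.Ioc U N,
    (aV V m : ℂ) * (ArithmeticFunction.vonMangoldt c : ℂ) *
      ((wt φ X (m * c) : ℂ) * ψ ((m * c : ℕ) : ZMod r))‖) ≤ C * X * (Real.log X) ^ 4

/-- **LFin**, the final statement of group L. -/
def FinStmt : Prop := ∀ φ : ℝ → ℝ, Hoh.Bump φ → ∃ C X0 : ℝ, 0 < C ∧ 2 ≤ X0 ∧ ∀ X : ℝ, X0 ≤ X →
  ∀ R : ℕ, (R : ℝ) ^ 20 ≤ X →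
  PS R (fun r ψ => ‖∑ p ∈ (Finset.Icc 1 ⌊3 * X⌋₊).filter Nat.Prime,
    ((Real.log p * wt φ X p : ℝ) : ℂ) * ψ ((p : ℕ) : ZMod r)‖) ≤ C * X * (Real.log X) ^ 4

end Pool.PrT
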