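import Pool.Agent.Lib.PrT.LPsl

/-!
# LFin (about 170 lines): assembly
Given `φ`, let `C1, C2` be the constants of `h1 φ hφ` (type I) and `h2 φ hφ` (type II). `X ≥ X0` large,
`R ^ 20 ≤ X`; for `R = 0` `PS = 0`. `U = V = ⌊X ^ (1/5 : ℝ)⌋₊`, `N = ⌊3 * X⌋₊`; for large `X`:
`R² ≤ X ^ (1/10) ≤ X ^ (1/5) - 1 ≤ U`, `U ≤ X`, `2 ≤ X`. Put `f n = wt φ X n * ψ n`. For `n > N`:
`n > 3 X`, `log (n / X) ≥ log 3 ≥ 19/20` so `f n = 0`; for `n ≤ U`: `n ≤ X`, `log (n / X) ≤ 0` so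
`f n = 0` (also for `n = 0`: `log 0 = 0`). By `hVau U V N f`:
`∑_{n ∈ Icc 1 N} Λ n f n = (type I sum with log) - (type I sum with cUV) + (type II sum)`, so
`‖..‖ ≤ (F1 r ψ) + (F2 r ψ)` with `F1`, `F2` the functions in `TypIStmt` and `TypIIStmt`.
`PS R F1 ≤ C1 R³ (U + 1) V log X ≤ C1 X ^ (3/20) * 2 X ^ (2/5) * log X ≤ C1 X` for large `X`,
`PS R F2 ≤ C2 X (log X) ^ 4`.
From `Λ` to primes: `∑_{n ∈ Icc 1 N} Λ n f n - ∑_{p ∈ (Icc 1 N).filter Prime} log p * wt φ X p * ψ p` is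
the sum over the non-primes of `Λ n f n`, of norm `≤ ∑_{n ∈ Icc 1 N, n not prime} Λ n = ψ(3X) - θ(3X)
≤ 2 √(3 X) log (3 X)` (`Chebyshev.psi_sub_theta_eq_sum_not_prime`, `Chebyshev.psi_sub_theta_le`);
times the number `≤ R² ≤ X ^ (1/10)` of pairs (`PS_le`): `≤ X` for large `X`.
Total `≤ (C1 + C2 + 1) X (log X) ^ 4` (for `X ≥ 3`, `log X ≥ 1`). `PS_add`, `PS_mono`, `PS_le` are in
`LPsl.lean`. Existence of `X0`: use `Filter.Eventually` (`isLittleO_log_rpow_atTop` etc.) and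
`Filter.eventually_atTop.1`.
-/

set_option autoImplicit false

namespace Pool.PrT

open Real

private theorem lf_wt_large {φ : ℝ → ℝ} (hφ : Hoh.Bump φ) {X : ℝ} (hX : 0 < X) {n : ℕ}
    (h : 3 * X ≤ n) : wt φ X n = 0 := by
  unfold wt
  apply hφ.zero
  right
  have h1 : Real.log 3 ≤ Real.log ((n : ℝ) / X) := by
    apply Real.log_le_log (by norm_num)
    rw [le_div_iff₀ hX]
    exact h
  have h2 := Real.log_three_gt_d9
  linarith

private theorem lf_wt_small {φ : ℝ → ℝ} (hφ : Hoh.Bump φ) {X : ℝ} (hX : 0 < X) {n : ℕ}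
    (h : (n : ℝ) ≤ X) : wt φ X n = 0 := by
  unfold wt
  apply hφ.zero
  left
  have h1 : Real.log ((n : ℝ) / X) ≤ 0 := by
    apply Real.log_nonpos (by positivity)
    rw [div_le_one hX]
    exact h
  linarith

private theorem lf_wt_abs {φ : ℝ → ℝ} (hφ : Hoh.Bump φ) (X : ℝ) (n : ℕ) :
    |wt φ X n| ≤ 1 := by
  unfold wt
  rw [abs_of_nonneg (hφ.nonneg _)]
  exact hφ.le_one _

private theorem lf_f_norm {φ : ℝ → ℝ} (hφ : Hoh.Bump φ) (X : ℝ) {r : ℕ}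
    (ψ : DirichletCharacter ℂ r) (n : ℕ) : ‖(wt φ X n : ℂ) * ψ ((n : ℕ) : ZMod r)‖ ≤ 1 := by
  rw [norm_mul, Complex.norm_real, Real.norm_eq_abs]
  calc |wt φ X n| * ‖ψ ((n : ℕ) : ZMod r)‖ ≤ 1 * 1 :=
        mul_le_mul (lf_wt_abs hφ X n) (DirichletCharacter.norm_le_one ψ _) (norm_nonneg _)
          zero_le_one
    _ = 1 := one_mul 1

private theorem lf_pp {φ : ℝ → ℝ} (hφ : Hoh.Bump φ) (X : ℝ) (hX : 1 ≤ 3 * X) {r : ℕ}
    (ψ : DirichletCharacter ℂ r) :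
    ‖∑ p ∈ (Finset.Icc 1 ⌊3 * X⌋₊).filter Nat.Prime,
        ((Real.log p * wt φ X p : ℝ) : ℂ) * ψ ((p : ℕ) : ZMod r)‖ ≤
      ‖∑ n ∈ Finset.Icc 1 ⌊3 * X⌋₊, (ArithmeticFunction.vonMangoldt n : ℂ) *
        ((wt φ X n : ℂ) * ψ ((n : ℕ) : ZMod r))‖ + 2 * √(3 * X) * Real.log (3 * X) := by
  classical
  have h1 := Finset.sum_filter_add_sum_filter_not (Finset.Icc 1 ⌊3 * X⌋₊) Nat.Prime
    (fun n => (ArithmeticFunction.vonMangoldt n : ℂ) *
        ((wt φ X n : ℂ) * ψ ((n : ℕ) : ZMod r)))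
  have h2 : ∑ p ∈ (Finset.Icc 1 ⌊3 * X⌋₊).filter Nat.Prime,
        ((Real.log p * wt φ X p : ℝ) : ℂ) * ψ ((p : ℕ) : ZMod r) =
      ∑ p ∈ (Finset.Icc 1 ⌊3 * X⌋₊).filter Nat.Prime, (ArithmeticFunction.vonMangoldt p : ℂ) *
        ((wt φ X p : ℂ) * ψ ((p : ℕ) : ZMod r)) := by
    refine Finset.sum_congr rfl fun p hp => ?_
    have hpp := (Finset.mem_filter.1 hp).2
    rw [ArithmeticFunction.vonMangoldt_apply_prime hpp]
    push_cast
    ring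
  have h3 : ∑ p ∈ (Finset.Icc 1 ⌊3 * X⌋₊).filter Nat.Prime,
        ((Real.log p * wt φ X p : ℝ) : ℂ) * ψ ((p : ℕ) : ZMod r) =
      ∑ n ∈ Finset.Icc 1 ⌊3 * X⌋₊, (ArithmeticFunction.vonMangoldt n : ℂ) *
        ((wt φ X n : ℂ) * ψ ((n : ℕ) : ZMod r)) -
      ∑ n ∈ (Finset.Icc 1 ⌊3 * X⌋₊).filter (fun n => ¬ Nat.Prime n),
        (ArithmeticFunction.vonMangoldt n : ℂ) *
        ((wt φ X n : ℂ) * ψ ((n : ℕ) : ZMod r)) := by
    rw [h2, ← h1]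
    ring
  rw [h3]
  refine (norm_sub_le _ _).trans ?_
  refine add_le_add le_rfl ?_
  refine (norm_sum_le _ _).trans ?_
  have h4 := Chebyshev.psi_sub_theta_le hX
  rw [Chebyshev.psi_sub_theta_eq_sum_not_prime] at h4
  refine le_trans ?_ h4
  have h5 : Finset.Ioc 0 ⌊3 * X⌋₊ = Finset.Icc 1 ⌊3 * X⌋₊ := by
    ext n
    simp only [Finset.mem_Ioc, Finset.mem_Icc]
    omega
  rw [h5]
  refine Finset.sum_le_sum fun n _ => ?_
  rw [norm_mul, Complex.norm_real, Real.norm_eq_abs,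
    abs_of_nonneg ArithmeticFunction.vonMangoldt_nonneg]
  calc ArithmeticFunction.vonMangoldt n * ‖(wt φ X n : ℂ) * ψ ((n : ℕ) : ZMod r)‖
      ≤ ArithmeticFunction.vonMangoldt n * 1 :=
        mul_le_mul_of_nonneg_left (lf_f_norm hφ X ψ n) ArithmeticFunction.vonMangoldt_nonneg
    _ = _ := mul_one _

private theorem lf_vau (hVau : VauStmt) {φ : ℝ → ℝ} (hφ : Hoh.Bump φ) (X : ℝ) (hX : 0 < X)
    (U V : ℕ) (hU : (U : ℝ) ≤ X) {r : ℕ} (ψ : DirichletCharacter ℂ r) :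
    ‖∑ n ∈ Finset.Icc 1 ⌊3 * X⌋₊, (ArithmeticFunction.vonMangoldt n : ℂ) *
        ((wt φ X n : ℂ) * ψ ((n : ℕ) : ZMod r))‖ ≤
    (‖∑ b ∈ Finset.Icc 1 V, (ArithmeticFunction.moebius b : ℂ) *
      ∑ m ∈ Finset.Icc 1 ⌊3 * X⌋₊,
      (Real.log m : ℂ) * ((wt φ X (b * m) : ℂ) * ψ ((b * m : ℕ) : ZMod r))‖ +
    ‖∑ d ∈ Finset.Icc 1 (U * V), (cUV U V d : ℂ) * ∑ m ∈ Finset.Icc 1 ⌊3 * X⌋₊,
      ((wt φ X (d * m) : ℂ) * ψ ((d * m : ℕ) : ZMod r))‖) +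
    ‖∑ m ∈ Finset.Ioc V ⌊3 * X⌋₊, ∑ c ∈ Finset.Ioc U ⌊3 * X⌋₊,
    (aV V m : ℂ) * (ArithmeticFunction.vonMangoldt c : ℂ) *
      ((wt φ X (m * c) : ℂ) * ψ ((m * c : ℕ) : ZMod r))‖ := by
  have h := hVau U V ⌊3 * X⌋₊ (fun n => (wt φ X n : ℂ) * ψ ((n : ℕ) : ZMod r)) (by
    intro n hn
    have h1 : 3 * X ≤ n := ((Nat.floor_lt (by positivity)).1 hn).le
    simp only [lf_wt_large hφ hX h1]
    simp)
  have h0 : ∑ n ∈ Finset.Icc 1 U, (ArithmeticFunction.vonMangoldt n : ℂ) *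
      ((wt φ X n : ℂ) * ψ ((n : ℕ) : ZMod r)) = 0 := by
    refine Finset.sum_eq_zero fun n hn => ?_
    have h1 : (n : ℝ) ≤ X := by
      refine le_trans ?_ hU
      exact_mod_cast (Finset.mem_Icc.1 hn).2
    rw [lf_wt_small hφ hX h1]
    simp
  rw [h0, zero_add] at h
  rw [h]
  refine (norm_add_le _ _).trans ?_
  exact add_le_add (norm_sub_le _ _) le_rfl

theorem FINp (hVau : VauStmt) (h1 : TypIStmt) (h2 : TypIIStmt) : FinStmt := by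
  intro φ hφ
  obtain ⟨C1, hC1, H1⟩ := h1 φ hφ
  obtain ⟨C2, hC2, H2⟩ := h2 φ hφ
  have hev1 : ∀ᶠ X : ℝ in Filter.atTop, Real.log X ≤ X ^ (1 / 20 : ℝ) := by
    have h := isLittleO_log_rpow_atTop (r := 1 / 20) (by norm_num)
    have h' := h.bound (c := 1) one_pos
    filter_upwards [h', Filter.eventually_ge_atTop 1] with X hX hX1
    rw [Real.norm_of_nonneg (Real.log_nonneg hX1),
      Real.norm_of_nonneg (Real.rpow_nonneg (by linarith) _), one_mul] at hX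
    exact hX
  obtain ⟨X1, hX1⟩ := Filter.eventually_atTop.1 hev1
  refine ⟨2 * C1 + C2 + 1, max X1 (2 ^ 20), by positivity,
    le_trans (by norm_num) (le_max_right _ _), ?_⟩
  intro X hX R hR
  have hXb : (2 : ℝ) ^ 20 ≤ X := le_trans (le_max_right _ _) hX
  have hX0 : (0 : ℝ) < X := lt_of_lt_of_le (by norm_num) hXb
  set t : ℝ := X ^ (1 / 20 : ℝ) with ht
  have htX : t ^ 20 = X := by
    rw [ht, ← Real.rpow_natCast, ← Real.rpow_mul hX0.le]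
    norm_num
  have ht0 : 0 < t := Real.rpow_pos_of_pos hX0 _
  have ht2 : 2 ≤ t := by
    by_contra hcon
    push Not at hcon
    have : t ^ 20 < 2 ^ 20 := pow_lt_pow_left₀ hcon ht0.le (by norm_num)
    rw [htX] at this
    linarith
  have hlog : Real.log X ≤ t := hX1 X (le_trans (le_max_left _ _) hX)
  have hlog1 : 1 ≤ Real.log X := by
    rw [Real.le_log_iff_exp_le hX0]
    have := Real.exp_one_lt_d9
    linarith
  have hRt : (R : ℝ) ≤ t := by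
    by_contra hcon
    push Not at hcon
    have : t ^ 20 < (R : ℝ) ^ 20 := pow_lt_pow_left₀ hcon ht0.le (by norm_num)
    rw [htX] at this
    linarith
  have hlog4 : 1 ≤ Real.log X ^ 4 := one_le_pow₀ hlog1
  rcases Nat.eq_zero_or_pos R with hR0 | hR0
  · subst hR0
    have h0 : PS 0 (fun r ψ => ‖∑ p ∈ (Finset.Icc 1 ⌊3 * X⌋₊).filter Nat.Prime,
      ((Real.log p * wt φ X p : ℝ) : ℂ) * ψ ((p : ℕ) : ZMod r)‖) = 0 := by
      unfold PS
      simp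
    rw [h0]
    positivity
  set U : ℕ := ⌊t ^ 4⌋₊ with hU
  have hUt : (U : ℝ) ≤ t ^ 4 := Nat.floor_le (by positivity)
  have ht1 : (1 : ℝ) ≤ t := by linarith
  have hUX : (U : ℝ) ≤ X := by
    rw [← htX]
    exact hUt.trans (pow_le_pow_right₀ ht1 (by norm_num))
  have hRU : R ^ 2 ≤ U := by
    apply Nat.le_floor
    push_cast
    calc (R : ℝ) ^ 2 ≤ t ^ 2 := pow_le_pow_left₀ (by positivity) hRt 2
      _ ≤ t ^ 4 := pow_le_pow_right₀ ht1 (by norm_num)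
  have hX2 : (2 : ℝ) ≤ X := le_trans (by norm_num) hXb
  have hN : ((⌊3 * X⌋₊ : ℕ) : ℝ) ≤ 3 * X := Nat.floor_le (by positivity)
  have T1 := H1 X R U U ⌊3 * X⌋₊ hX2 hUX hUX
  have T2 := H2 X R U U ⌊3 * X⌋₊ hX2 hR0 hRU hRU hN
  have hB : 0 ≤ 2 * √(3 * X) * Real.log (3 * X) := by
    have := Real.log_nonneg (show (1 : ℝ) ≤ 3 * X by linarith)
    positivity
  have T3 : PS R (fun r (_ : DirichletCharacter ℂ r) => 2 * √(3 * X) * Real.log (3 * X)) ≤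
      (R : ℝ) ^ 2 * (2 * √(3 * X) * Real.log (3 * X)) :=
    PS_le hB fun r _ ψ _ => le_rfl
  have hmain : PS R (fun r ψ => ‖∑ p ∈ (Finset.Icc 1 ⌊3 * X⌋₊).filter Nat.Prime,
      ((Real.log p * wt φ X p : ℝ) : ℂ) * ψ ((p : ℕ) : ZMod r)‖) ≤
      C1 * (R : ℝ) ^ 3 * ((U : ℝ) + 1) * U * Real.log X + C2 * X * (Real.log X) ^ 4 +
        (R : ℝ) ^ 2 * (2 * √(3 * X) * Real.log (3 * X)) := by
    refine le_trans ?_ (add_le_add (add_le_add T1 T2) T3)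
    rw [← PS_add, ← PS_add]
    refine PS_mono fun r _ ψ _ => ?_
    exact (lf_pp hφ X (by linarith) ψ).trans
      (add_le_add (lf_vau hVau hφ X hX0 U U hUX ψ) le_rfl)
  refine hmain.trans ?_
  have e1 : C1 * (R : ℝ) ^ 3 * ((U : ℝ) + 1) * U * Real.log X ≤ 2 * C1 * X := by
    have a1 : (R : ℝ) ^ 3 ≤ t ^ 3 := pow_le_pow_left₀ (by positivity) hRt 3
    have a2 : (U : ℝ) + 1 ≤ 2 * t ^ 4 := by
      have : (1 : ℝ) ≤ t ^ 4 := one_le_pow₀ ht1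
      linarith
    calc C1 * (R : ℝ) ^ 3 * ((U : ℝ) + 1) * U * Real.log X
        ≤ C1 * t ^ 3 * (2 * t ^ 4) * t ^ 4 * t := by gcongr
      _ = 2 * C1 * t ^ 12 := by ring
      _ ≤ 2 * C1 * t ^ 20 := by
          apply mul_le_mul_of_nonneg_left _ (by positivity)
          exact pow_le_pow_right₀ ht1 (by norm_num)
      _ = 2 * C1 * X := by rw [htX]
  have e3 : (R : ℝ) ^ 2 * (2 * √(3 * X) * Real.log (3 * X)) ≤ X := by
    have a1 : (R : ℝ) ^ 2 ≤ t ^ 2 := pow_le_pow_left₀ (by positivity) hRt 2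
    have a2 : √(3 * X) ≤ 2 * t ^ 10 := by
      apply Real.sqrt_le_iff.2
      constructor
      · positivity
      · rw [← htX]
        have : (0 : ℝ) ≤ t ^ 20 := by positivity
        nlinarith
    have a3 : Real.log (3 * X) ≤ 3 * t := by
      rw [Real.log_mul (by norm_num) hX0.ne']
      have := Real.log_three_lt_d9
      linarith
    have a4 : 0 ≤ Real.log (3 * X) := Real.log_nonneg (by linarith)
    calc (R : ℝ) ^ 2 * (2 * √(3 * X) * Real.log (3 * X))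
        ≤ t ^ 2 * (2 * (2 * t ^ 10) * (3 * t)) := by gcongr
      _ = 12 * t ^ 13 := by ring
      _ ≤ t ^ 7 * t ^ 13 := by
          apply mul_le_mul_of_nonneg_right _ (by positivity)
          calc (12 : ℝ) ≤ 2 ^ 7 := by norm_num
            _ ≤ t ^ 7 := pow_le_pow_left₀ (by norm_num) ht2 7
      _ = X := by rw [← pow_add, ← htX]
  have hXl : X ≤ X * Real.log X ^ 4 := le_mul_of_one_le_right hX0.le hlog4
  have e1' : 2 * C1 * X ≤ 2 * C1 * (X * Real.log X ^ 4) :=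
    mul_le_mul_of_nonneg_left hXl (by positivity)
  calc C1 * (R : ℝ) ^ 3 * ((U : ℝ) + 1) * U * Real.log X + C2 * X * (Real.log X) ^ 4 +
        (R : ℝ) ^ 2 * (2 * √(3 * X) * Real.log (3 * X))
      ≤ 2 * C1 * (X * Real.log X ^ 4) + C2 * X * (Real.log X) ^ 4 + X * Real.log X ^ 4 :=
        add_le_add (add_le_add (e1.trans e1') le_rfl) (e3.trans hXl)
    _ = (2 * C1 + C2 + 1) * X * Real.log X ^ 4 := by ring

end Pool.PrT
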