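import Pool.Agent.Lib.PrT.LDefs
import Pool.Agent.Lib.LogCh.ENpc

/-!
# LPar (about 60 lines): partial summation against a primitive character
`LogCh.NPCp : NPCStmt` (check the name in `Lib/LogCh/ENpc.lean`) with `r' = 1`, `ψ' = 1`
(`DirichletCharacter.isPrimitive_one_level_one`; its values are `1`, `r ≠ 1` because `2 ≤ r`) gives
`‖S Y‖ ≤ r` for `S Y = ∑ n ∈ Icc 1 Y, ψ n`. Induction on `N` (or `Finset.sum_range_by_parts`):
`∑_{m=1}^{N} g m ψ m = g N * S N - ∑_{m ∈ Ico 1 N} (g (m+1) - g m) * S m`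
(for `N = 0` everything is `0`, for the step `N → N+1`: `g (N+1) ψ (N+1) = g (N+1) (S (N+1) - S N)`).
-/

set_option autoImplicit false

namespace Pool.PrT

open Real

theorem PAR : ParStmt := by
  intro r ψ hr hψ N g
  have hS : ∀ Y : ℕ, ‖∑ n ∈ Finset.Icc 1 Y, ψ ((n : ℕ) : ZMod r)‖ ≤ (r : ℝ) := by
    intro Y
    have hp1 : (1 : DirichletCharacter ℂ 1).IsPrimitive :=
      DirichletCharacter.isPrimitive_one_level_one
    have hne : (⟨r, ψ⟩ : Σ s : ℕ, DirichletCharacter ℂ s) ≠ ⟨1, 1⟩ := by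
      intro h
      have h2 : r = 1 := congrArg Sigma.fst h
      omega
    have h := Pool.Agent.LogCh.NPCp r 1 ψ 1 (by omega) le_rfl hψ hp1 hne Y
    have h3 : ∑ n ∈ Finset.Icc 1 Y, ψ ((n : ℕ) : ZMod r) *
        (starRingEnd ℂ) ((1 : DirichletCharacter ℂ 1) ((n : ℕ) : ZMod 1)) =
        ∑ n ∈ Finset.Icc 1 Y, ψ ((n : ℕ) : ZMod r) := by
      refine Finset.sum_congr rfl fun n _ => ?_
      have h4 : (1 : DirichletCharacter ℂ 1) ((n : ℕ) : ZMod 1) = 1 :=
        MulChar.one_apply (isUnit_of_subsingleton _)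
      rw [h4, map_one, mul_one]
    rw [h3] at h
    simpa using h
  have key : ∀ N : ℕ, ∑ m ∈ Finset.Icc 1 N, (g m : ℂ) * ψ ((m : ℕ) : ZMod r) =
      (g N : ℂ) * ∑ n ∈ Finset.Icc 1 N, ψ ((n : ℕ) : ZMod r) -
      ∑ m ∈ Finset.Ico 1 N, ((g (m + 1) : ℂ) - (g m : ℂ)) *
        ∑ n ∈ Finset.Icc 1 m, ψ ((n : ℕ) : ZMod r) := by
    intro N
    induction N with
    | zero => simp
    | succ N ih =>
      rw [Finset.sum_Icc_succ_top (by omega), ih]
      rcases Nat.eq_zero_or_pos N with h0 | h0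
      · subst h0
        simp
      · rw [Finset.sum_Ico_succ_top (by omega : 1 ≤ N), Finset.sum_Icc_succ_top (by omega)]
        ring
  rw [key N]
  have hr0 : (0 : ℝ) ≤ r := Nat.cast_nonneg r
  calc _ ≤ ‖(g N : ℂ) * ∑ n ∈ Finset.Icc 1 N, ψ ((n : ℕ) : ZMod r)‖ +
        ‖∑ m ∈ Finset.Ico 1 N, ((g (m + 1) : ℂ) - (g m : ℂ)) *
          ∑ n ∈ Finset.Icc 1 m, ψ ((n : ℕ) : ZMod r)‖ := norm_sub_le _ _
    _ ≤ r * |g N| + ∑ m ∈ Finset.Ico 1 N, r * |g (m + 1) - g m| := by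
        refine add_le_add ?_ ((norm_sum_le _ _).trans (Finset.sum_le_sum fun m _ => ?_))
        · rw [norm_mul, Complex.norm_real, Real.norm_eq_abs, mul_comm]
          exact mul_le_mul_of_nonneg_right (hS N) (abs_nonneg _)
        · rw [norm_mul, ← Complex.ofReal_sub, Complex.norm_real, Real.norm_eq_abs, mul_comm]
          exact mul_le_mul_of_nonneg_right (hS m) (abs_nonneg _)
    _ = r * (|g N| + ∑ m ∈ Finset.Ico 1 N, |g (m + 1) - g m|) := by
        rw [mul_add, Finset.mul_sum]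

end Pool.PrT
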