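import Pool.Agent.Lib.PrT.LPsl
import Pool.Agent.Lib.LogCh.EMls
import Pool.Agent.Lib.LogCh.EGsum
import Pool.Agent.Lib.MP_0bb3d8_nt.HohPerron

/-!
# LSep (about 200 lines): separation of the variables and the large sieve
Let `K u = Hoh.Kern φ u` (integrable: `Hoh.kern_integrable hφ`), and
`Hoh.kern_inversion hφ v : ∫ u, K u * exp (-(I * u * v)) = 2 π φ v`.
(1) For `m, c ≥ 1`: `wt φ X (m c) = (1/2π) ∫ u, K u * exp (-(I u log (m c / X)))` and
`exp (-(I u log (m c / X))) = exp (I u log X) * e_u m * e_u c`, `e_u n := exp (-(I u log n))`,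
`‖e_u n‖ = 1`. So with `A_u ψ := ∑ m ∈ Icc 1 M, a m * e_u m * ψ m`,
`B_u ψ := ∑ c ∈ Icc 1 N, b c * e_u c * ψ c`, the double sum is
`(1/2π) ∫ u, K u * exp (I u log X) * A_u ψ * B_u ψ` (finite sums and integrals commute:
`MeasureTheory.integral_finset_sum`, `integral_const_mul`; each term is integrable, as `K` times a
bounded continuous function: `Integrable.mul_bdd`, see the proof of `Hoh.integral_kernel_LSeries`).
Hence `‖double sum‖ ≤ (1/2π) ∫ u, ‖K u‖ * ‖A_u ψ‖ * ‖B_u ψ‖` (`norm_integral_le_integral_norm`).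
(2) `PS` is a finite sum: `PS R (∫ ..) = ∫ u, ‖K u‖ * PS R (‖A_u ψ‖ ‖B_u ψ‖)`.
(3) For every `u`, Cauchy-Schwarz over the pairs `(r, ψ)` (`Finset.sum_mul_le_sqrt_mul_sqrt` over a
`Finset.sigma`, or `Real.add_pow_le`-free version: apply it twice; the indicator of `IsPrimitive` is its
own square) and `LogCh.MLSp LogCh.GSUMp : LogCh.MLSStmt` (the sum over `2 ≤ r ≤ R` is at most the sum
over `1 ≤ r ≤ R`), applied to `x n = a n * e_u n`, `‖x n‖ = ‖a n‖`:
`PS R (‖A_u ψ‖ ‖B_u ψ‖) ≤ √(C (M + R²) ∑ ‖a m‖²) √(C (N + R²) ∑ ‖b c‖²) = C √.. √..`.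
(4) `C_final = C * (1/2π) ∫ ‖K‖ + 1`.
-/

set_option autoImplicit false

namespace Pool.PrT

open Real

open Classical in
private theorem lsep_ps_eq (R : ℕ) (F : ∀ r : ℕ, DirichletCharacter ℂ r → ℝ) :
    PS R F = ∑ p ∈ (Finset.Icc 2 R).sigma (fun r =>
      (Finset.univ : Finset (DirichletCharacter ℂ r)).filter (fun ψ => ψ.IsPrimitive)), F p.1 p.2 := by
  unfold PS
  rw [Finset.sum_sigma]
  refine Finset.sum_congr rfl fun r _ => ?_
  rw [Finset.sum_filter]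

private theorem lsep_cs (R : ℕ) (F G : ∀ r : ℕ, DirichletCharacter ℂ r → ℝ) :
    PS R (fun r ψ => F r ψ * G r ψ) ≤
      √(PS R (fun r ψ => F r ψ ^ 2)) * √(PS R (fun r ψ => G r ψ ^ 2)) := by
  classical
  rw [lsep_ps_eq, lsep_ps_eq, lsep_ps_eq]
  exact Real.sum_mul_le_sqrt_mul_sqrt _ _ _

private theorem lsep_ls (R M : ℕ) (x : ℕ → ℂ) (B : ℝ)
    (h : open Classical in ∑ r ∈ Finset.Icc 1 R, ∑ ψ : DirichletCharacter ℂ r,
      (if ψ.IsPrimitive then ‖∑ n ∈ Finset.Icc 1 M, x n * ψ ((n : ℕ) : ZMod r)‖ ^ 2 else 0) ≤ B) :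
    PS R (fun r ψ => ‖∑ n ∈ Finset.Icc 1 M, x n * ψ ((n : ℕ) : ZMod r)‖ ^ 2) ≤ B := by
  classical
  refine le_trans ?_ h
  unfold PS
  refine Finset.sum_le_sum_of_subset_of_nonneg (Finset.Icc_subset_Icc_left (by norm_num)) ?_
  intro r _ _
  refine Finset.sum_nonneg fun ψ _ => ?_
  split_ifs <;> positivity

/-- twisted coefficient -/
private noncomputable def lsepE (u : ℝ) (n : ℕ) : ℂ :=
  Complex.exp (-(Complex.I * u * (Real.log n : ℝ)))

private theorem lsepE_norm (u : ℝ) (n : ℕ) : ‖lsepE u n‖ = 1 := by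
  unfold lsepE
  have : -(Complex.I * u * ((Real.log n : ℝ) : ℂ)) = ((-(u * Real.log n) : ℝ) : ℂ) * Complex.I := by
    push_cast; ring
  rw [this, Complex.norm_exp_ofReal_mul_I]

private theorem lsepE_cont (n : ℕ) : Continuous (fun u : ℝ => lsepE u n) := by
  unfold lsepE
  fun_prop

private noncomputable def lsepA (a : ℕ → ℂ) (M : ℕ) (u : ℝ) (r : ℕ)
    (ψ : DirichletCharacter ℂ r) : ℂ :=
  ∑ m ∈ Finset.Icc 1 M, (a m * lsepE u m) * ψ ((m : ℕ) : ZMod r)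

private theorem lsepA_cont (a : ℕ → ℂ) (M r : ℕ) (ψ : DirichletCharacter ℂ r) :
    Continuous (fun u : ℝ => lsepA a M u r ψ) := by
  unfold lsepA
  refine continuous_finsetSum _ fun m _ => ?_
  exact (continuous_const.mul (lsepE_cont m)).mul continuous_const

private theorem lsepA_bdd (a : ℕ → ℂ) (M r : ℕ) (ψ : DirichletCharacter ℂ r) (u : ℝ) :
    ‖lsepA a M u r ψ‖ ≤ ∑ m ∈ Finset.Icc 1 M, ‖a m‖ * ‖ψ ((m : ℕ) : ZMod r)‖ := by
  unfold lsepA
  refine (norm_sum_le _ _).trans (Finset.sum_le_sum fun m _ => ?_)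
  rw [norm_mul, norm_mul, lsepE_norm, mul_one]

private theorem lsep_split {X : ℝ} (hX : 0 < X) (u : ℝ) (m c : ℕ) (hm : 1 ≤ m) (hc : 1 ≤ c) :
    Complex.exp (-(Complex.I * u * (Real.log (((m * c : ℕ) : ℝ) / X) : ℝ))) =
      Complex.exp (Complex.I * u * (Real.log X : ℝ)) * lsepE u m * lsepE u c := by
  have hm' : (m : ℝ) ≠ 0 := by positivity
  have hc' : (c : ℝ) ≠ 0 := by positivity
  unfold lsepE
  rw [← Complex.exp_add, ← Complex.exp_add]
  congr 1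
  push_cast
  rw [Real.log_div (mul_ne_zero hm' hc') hX.ne', Real.log_mul hm' hc']
  push_cast
  ring

open MeasureTheory in
private theorem lsep_int {φ : ℝ → ℝ} (hφ : Hoh.Bump φ) {X : ℝ} (n : ℕ) (k : ℂ) :
    Integrable (fun u : ℝ => k * (Hoh.Kern φ u *
      Complex.exp (-(Complex.I * u * (Real.log ((n : ℝ) / X) : ℝ))))) := by
  refine Integrable.const_mul ?_ k
  refine (Hoh.kern_integrable hφ).mul_bdd (c := 1) ?_ ?_
  · apply Continuous.aestronglyMeasurable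
    fun_prop
  · refine Filter.Eventually.of_forall fun u => ?_
    have : -(Complex.I * u * ((Real.log ((n : ℝ) / X) : ℝ) : ℂ)) =
        ((-(u * Real.log ((n : ℝ) / X)) : ℝ) : ℂ) * Complex.I := by
      push_cast; ring
    rw [this, Complex.norm_exp_ofReal_mul_I]

open MeasureTheory in
private theorem lsep_rep {φ : ℝ → ℝ} (hφ : Hoh.Bump φ) {X : ℝ} (hX : 0 < X) (M N : ℕ)
    (a b : ℕ → ℂ) (r : ℕ) (ψ : DirichletCharacter ℂ r) :
    ∑ m ∈ Finset.Icc 1 M, ∑ c ∈ Finset.Icc 1 N,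
      a m * b c * ((wt φ X (m * c) : ℂ) * ψ ((m * c : ℕ) : ZMod r)) =
    ∫ u : ℝ, (1 / (2 * π) : ℂ) * (Hoh.Kern φ u *
      Complex.exp (Complex.I * u * (Real.log X : ℝ)) * (lsepA a M u r ψ * lsepA b N u r ψ)) := by
  have hpi : (π : ℂ) ≠ 0 := by exact_mod_cast Real.pi_ne_zero
  have h1 : ∀ u : ℝ, (1 / (2 * π) : ℂ) * (Hoh.Kern φ u *
      Complex.exp (Complex.I * u * (Real.log X : ℝ)) * (lsepA a M u r ψ * lsepA b N u r ψ)) =
      ∑ m ∈ Finset.Icc 1 M, ∑ c ∈ Finset.Icc 1 N,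
        ((1 / (2 * π) : ℂ) * (a m * b c * ψ ((m * c : ℕ) : ZMod r))) * (Hoh.Kern φ u *
          Complex.exp (-(Complex.I * u * (Real.log (((m * c : ℕ) : ℝ) / X) : ℝ)))) := by
    intro u
    unfold lsepA
    rw [Finset.sum_mul_sum, Finset.mul_sum, Finset.mul_sum]
    refine Finset.sum_congr rfl fun m hm => ?_
    rw [Finset.mul_sum, Finset.mul_sum]
    refine Finset.sum_congr rfl fun c hc => ?_
    rw [lsep_split hX u m c (Finset.mem_Icc.1 hm).1 (Finset.mem_Icc.1 hc).1, Nat.cast_mul, map_mul]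
    ring
  simp only [h1]
  rw [integral_finsetSum _ (fun m _ => integrable_finsetSum _ (fun c _ => lsep_int hφ _ _))]
  refine Finset.sum_congr rfl fun m _ => ?_
  rw [integral_finsetSum _ (fun c _ => lsep_int hφ _ _)]
  refine Finset.sum_congr rfl fun c _ => ?_
  rw [integral_const_mul, Hoh.kern_inversion hφ]
  unfold wt
  push_cast
  field_simp

open MeasureTheory in
private theorem lsep_integrable {φ : ℝ → ℝ} (hφ : Hoh.Bump φ) (M N : ℕ)
    (a b : ℕ → ℂ) (r : ℕ) (ψ : DirichletCharacter ℂ r) :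
    Integrable (fun u : ℝ => (1 / (2 * π)) * ‖Hoh.Kern φ u‖ *
      (‖lsepA a M u r ψ‖ * ‖lsepA b N u r ψ‖)) := by
  refine ((Hoh.kern_integrable hφ).norm.const_mul (1 / (2 * π))).mul_bdd
    (c := (∑ m ∈ Finset.Icc 1 M, ‖a m‖ * ‖ψ ((m : ℕ) : ZMod r)‖) *
      (∑ m ∈ Finset.Icc 1 N, ‖b m‖ * ‖ψ ((m : ℕ) : ZMod r)‖)) ?_ ?_
  · exact ((lsepA_cont a M r ψ).norm.mul (lsepA_cont b N r ψ).norm).aestronglyMeasurable
  · refine Filter.Eventually.of_forall fun u => ?_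
    rw [norm_mul, norm_norm, norm_norm]
    exact mul_le_mul (lsepA_bdd a M r ψ u) (lsepA_bdd b N r ψ u) (norm_nonneg _)
      (Finset.sum_nonneg fun m _ => by positivity)

open MeasureTheory in
private theorem lsep_ps_int (R : ℕ) (G : ℝ → ∀ r : ℕ, DirichletCharacter ℂ r → ℝ)
    (hG : ∀ (r : ℕ) (ψ : DirichletCharacter ℂ r), Integrable (fun u => G u r ψ)) :
    PS R (fun r ψ => ∫ u, G u r ψ) = ∫ u, PS R (G u) := by
  simp only [lsep_ps_eq]
  rw [integral_finsetSum _ (fun p _ => hG p.1 p.2)]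

open MeasureTheory in
private theorem lsep_ps_integrable (R : ℕ) (G : ℝ → ∀ r : ℕ, DirichletCharacter ℂ r → ℝ)
    (hG : ∀ (r : ℕ) (ψ : DirichletCharacter ℂ r), Integrable (fun u => G u r ψ)) :
    Integrable (fun u => PS R (G u)) := by
  simp only [lsep_ps_eq]
  exact integrable_finsetSum _ (fun p _ => hG p.1 p.2)

theorem SEP : SepStmt := by
  classical
  intro φ hφ
  obtain ⟨C, hC, hMLS⟩ := Pool.Agent.LogCh.MLSp Pool.Agent.LogCh.GSUMp
  set J : ℝ := ∫ u : ℝ, ‖Hoh.Kern φ u‖ with hJ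
  have hJ0 : 0 ≤ J := MeasureTheory.integral_nonneg fun u => norm_nonneg _
  refine ⟨C * (1 / (2 * π)) * J + 1, by positivity, fun R M N X a b hR hX => ?_⟩
  set QM : ℝ := ((M : ℝ) + (R : ℝ) ^ 2) * ∑ m ∈ Finset.Icc 1 M, ‖a m‖ ^ 2 with hQM
  set QN : ℝ := ((N : ℝ) + (R : ℝ) ^ 2) * ∑ c ∈ Finset.Icc 1 N, ‖b c‖ ^ 2 with hQN
  have hQM0 : 0 ≤ QM := by positivity
  have hQN0 : 0 ≤ QN := by positivity
  -- the large sieve for the twisted coefficients
  have hls : ∀ (K : ℕ) (x : ℕ → ℂ) (u : ℝ), PS R (fun r ψ => ‖lsepA x K u r ψ‖ ^ 2) ≤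
      C * (((K : ℝ) + (R : ℝ) ^ 2) * ∑ m ∈ Finset.Icc 1 K, ‖x m‖ ^ 2) := by
    intro K x u
    have h := lsep_ls R K (fun n => x n * lsepE u n) _ (hMLS R K (fun n => x n * lsepE u n) hR)
    refine h.trans (le_of_eq ?_)
    have : ∀ n, ‖x n * lsepE u n‖ = ‖x n‖ := fun n => by rw [norm_mul, lsepE_norm, mul_one]
    simp only [this]
    ring
  have hcs : ∀ u : ℝ, PS R (fun r ψ => ‖lsepA a M u r ψ‖ * ‖lsepA b N u r ψ‖) ≤
      C * (√QM * √QN) := by
    intro u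
    refine (lsep_cs R _ _).trans ?_
    calc _ ≤ √(C * QM) * √(C * QN) :=
          mul_le_mul (Real.sqrt_le_sqrt (hls M a u)) (Real.sqrt_le_sqrt (hls N b u))
            (Real.sqrt_nonneg _) (Real.sqrt_nonneg _)
      _ = C * (√QM * √QN) := by
          rw [Real.sqrt_mul hC.le, Real.sqrt_mul hC.le]
          have := Real.mul_self_sqrt hC.le
          linear_combination (√QM * √QN) * this
  have hstep : PS R (fun r ψ => ‖∑ m ∈ Finset.Icc 1 M, ∑ c ∈ Finset.Icc 1 N,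
      a m * b c * ((wt φ X (m * c) : ℂ) * ψ ((m * c : ℕ) : ZMod r))‖) ≤
      ∫ u : ℝ, PS R (fun r ψ => (1 / (2 * π)) * ‖Hoh.Kern φ u‖ *
        (‖lsepA a M u r ψ‖ * ‖lsepA b N u r ψ‖)) := by
    rw [← lsep_ps_int R (fun u r ψ => (1 / (2 * π)) * ‖Hoh.Kern φ u‖ *
        (‖lsepA a M u r ψ‖ * ‖lsepA b N u r ψ‖)) (fun r ψ => lsep_integrable hφ M N a b r ψ)]
    refine PS_mono fun r _ ψ _ => ?_
    rw [lsep_rep hφ hX]
    refine (MeasureTheory.norm_integral_le_integral_norm _).trans (le_of_eq ?_)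
    congr 1
    funext u
    have he : ‖Complex.exp (Complex.I * u * ((Real.log X : ℝ) : ℂ))‖ = 1 := by
      have : Complex.I * u * ((Real.log X : ℝ) : ℂ) = ((u * Real.log X : ℝ) : ℂ) * Complex.I := by
        push_cast; ring
      rw [this, Complex.norm_exp_ofReal_mul_I]
    have hp : ‖(1 / (2 * π) : ℂ)‖ = 1 / (2 * π) := by
      have : (1 / (2 * π) : ℂ) = ((1 / (2 * π) : ℝ) : ℂ) := by push_cast; rfl
      rw [this, Complex.norm_real, Real.norm_of_nonneg (by positivity)]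
    rw [norm_mul, norm_mul, norm_mul, norm_mul, he, hp, mul_one]
    ring
  refine hstep.trans ?_
  have hint : MeasureTheory.Integrable (fun u : ℝ => PS R (fun r ψ => (1 / (2 * π)) * ‖Hoh.Kern φ u‖ *
        (‖lsepA a M u r ψ‖ * ‖lsepA b N u r ψ‖))) :=
    lsep_ps_integrable R (fun u r ψ => (1 / (2 * π)) * ‖Hoh.Kern φ u‖ *
        (‖lsepA a M u r ψ‖ * ‖lsepA b N u r ψ‖)) (fun r ψ => lsep_integrable hφ M N a b r ψ)
  have hint2 : MeasureTheory.Integrable (fun u : ℝ => ‖Hoh.Kern φ u‖ *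
      ((1 / (2 * π)) * (C * (√QM * √QN)))) := (Hoh.kern_integrable hφ).norm.mul_const _
  calc ∫ u : ℝ, PS R (fun r ψ => (1 / (2 * π)) * ‖Hoh.Kern φ u‖ *
        (‖lsepA a M u r ψ‖ * ‖lsepA b N u r ψ‖))
      ≤ ∫ u : ℝ, ‖Hoh.Kern φ u‖ * ((1 / (2 * π)) * (C * (√QM * √QN))) := by
        refine MeasureTheory.integral_mono hint hint2 fun u => ?_
        show PS R (fun r ψ => (1 / (2 * π)) * ‖Hoh.Kern φ u‖ *
          (‖lsepA a M u r ψ‖ * ‖lsepA b N u r ψ‖)) ≤ _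
        rw [PS_smul]
        have h0 : 0 ≤ (1 / (2 * π)) * ‖Hoh.Kern φ u‖ := by positivity
        calc _ ≤ (1 / (2 * π)) * ‖Hoh.Kern φ u‖ * (C * (√QM * √QN)) :=
              mul_le_mul_of_nonneg_left (hcs u) h0
          _ = _ := by ring
    _ = J * ((1 / (2 * π)) * (C * (√QM * √QN))) := by
        rw [MeasureTheory.integral_mul_const]
    _ = (C * (1 / (2 * π)) * J) * √QM * √QN := by ring
    _ ≤ (C * (1 / (2 * π)) * J + 1) * √QM * √QN := by
        refine mul_le_mul_of_nonneg_right (mul_le_mul_of_nonneg_right (by linarith)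
          (Real.sqrt_nonneg _)) (Real.sqrt_nonneg _)

end Pool.PrT
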