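import Pool.Agent.Lib.PrT.LDefs

/-!
# LTau (about 100 lines): mean square of the divisor function
ONLY MATHLIB. `|aV V m| ≤ d(m)` (number of divisors, `|μ| ≤ 1`). So it is enough that
`∑_{m ∈ Icc 1 M} d(m)² ≤ M (1 + log M)³`. `d(m)² = #{(a, b) : a ∣ m, b ∣ m}`. The map
`(m, a, b) ↦ (g, a', b', k)`, `g = gcd a b`, `a = g a'`, `b = g b'`, `k = m / (g a' b')`
(`lcm a b = g a' b' ∣ m`) is injective into the quadruples of positive integers with
`g a' b' k ≤ M`; for fixed `g, a', b' ≤ M` the number of `k` is `≤ M / (g a' b')`. So the sum is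
`≤ ∑_{g, a', b' ∈ Icc 1 M} M / (g a' b') = M (∑_{g ∈ Icc 1 M} 1/g)³ ≤ M (1 + log M)³`
(`harmonic_le_one_add_log`, cast to `ℝ`). Alternative without the injection:
`∑_{m ≤ M} 1[a ∣ m, b ∣ m] ≤ M / lcm a b` and `1 / lcm a b = gcd a b / (a b) ≤ ∑_{g ∣ a, g ∣ b} g / (a b)`
(as `gcd a b` is one of the terms), then `∑_{a, b} ∑_{g ∣ a, b} g / (a b) = ∑_g (1/g) (∑_{a' ≤ M/g} 1/a')²`.
-/

set_option autoImplicit false

namespace Pool.PrT

open Real

private theorem ltau_card (m M : ℕ) (hm : m ∈ Finset.Icc 1 M) :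
    m.divisors.card ^ 2 ≤ (((Finset.Icc 1 M) ×ˢ ((Finset.Icc 1 M) ×ˢ (Finset.Icc 1 M))).filter
      (fun t => t.1 * (t.2.1 * t.2.2) ∣ m)).card := by
  rw [Finset.mem_Icc] at hm
  rw [sq, ← Finset.card_product]
  refine Finset.card_le_card_of_injOn
    (fun p : ℕ × ℕ => (Nat.gcd p.1 p.2, p.1 / Nat.gcd p.1 p.2, p.2 / Nat.gcd p.1 p.2)) ?_ ?_
  · rintro ⟨a, b⟩ hp
    simp only [Finset.coe_product, Set.mem_prod, Finset.mem_coe, Nat.mem_divisors] at hp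
    obtain ⟨⟨ha, hm0⟩, hb, -⟩ := hp
    have ha0 : 0 < a := Nat.pos_of_dvd_of_pos ha (by omega)
    have hb0 : 0 < b := Nat.pos_of_dvd_of_pos hb (by omega)
    have hg0 : 0 < Nat.gcd a b := Nat.gcd_pos_of_pos_left b ha0
    have haM : a ≤ M := (Nat.le_of_dvd (by omega) ha).trans hm.2
    have hbM : b ≤ M := (Nat.le_of_dvd (by omega) hb).trans hm.2
    have hga : Nat.gcd a b ∣ a := Nat.gcd_dvd_left a b
    have hgb : Nat.gcd a b ∣ b := Nat.gcd_dvd_right a b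
    have h1 : Nat.gcd a b ≤ a := Nat.le_of_dvd ha0 hga
    have h2 : 0 < a / Nat.gcd a b := Nat.div_pos h1 hg0
    have h3 : 0 < b / Nat.gcd a b := Nat.div_pos (Nat.le_of_dvd hb0 hgb) hg0
    simp only [Finset.coe_filter, Finset.mem_product, Finset.mem_Icc, Set.mem_ofPred_eq]
    refine ⟨⟨⟨hg0, h1.trans haM⟩, ⟨h2, (Nat.div_le_self _ _).trans haM⟩,
      ⟨h3, (Nat.div_le_self _ _).trans hbM⟩⟩, ?_⟩
    have h4 : Nat.gcd a b * (a / Nat.gcd a b * (b / Nat.gcd a b)) = Nat.lcm a b := by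
      rw [← mul_assoc, Nat.mul_div_cancel' hga]
      unfold Nat.lcm
      rw [Nat.mul_div_assoc _ hgb]
    rw [h4]
    exact Nat.lcm_dvd ha hb
  · rintro ⟨a, b⟩ hp ⟨c, d⟩ hq h
    simp only [Prod.mk.injEq] at h ⊢
    obtain ⟨e1, e2, e3⟩ := h
    have h1 : Nat.gcd a b * (a / Nat.gcd a b) = a := Nat.mul_div_cancel' (Nat.gcd_dvd_left a b)
    have h2 : Nat.gcd a b * (b / Nat.gcd a b) = b := Nat.mul_div_cancel' (Nat.gcd_dvd_right a b)
    have h3 : Nat.gcd c d * (c / Nat.gcd c d) = c := Nat.mul_div_cancel' (Nat.gcd_dvd_left c d)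
    have h4 : Nat.gcd c d * (d / Nat.gcd c d) = d := Nat.mul_div_cancel' (Nat.gcd_dvd_right c d)
    constructor
    · calc a = Nat.gcd a b * (a / Nat.gcd a b) := h1.symm
        _ = Nat.gcd c d * (c / Nat.gcd c d) := by rw [e2, e1]
        _ = c := h3
    · calc b = Nat.gcd a b * (b / Nat.gcd a b) := h2.symm
        _ = Nat.gcd c d * (d / Nat.gcd c d) := by rw [e3, e1]
        _ = d := h4

private theorem ltau_count (M k : ℕ) (hk : 1 ≤ k) :
    (((Finset.Icc 1 M).filter (fun m => k ∣ m)).card : ℝ) ≤ (M : ℝ) * (k : ℝ)⁻¹ := by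
  have h1 : (Finset.Icc 1 M).filter (fun m => k ∣ m) = (Finset.Ioc 0 M).filter (fun m => k ∣ m) := by
    congr 1
  rw [h1, Nat.Ioc_filter_dvd_card_eq_div]
  rw [← div_eq_mul_inv]
  exact Nat.cast_div_le

private theorem ltau_harm (M : ℕ) :
    ∑ g ∈ Finset.Icc 1 M, ((g : ℝ))⁻¹ ≤ 1 + Real.log M := by
  have h := harmonic_le_one_add_log M
  rw [harmonic_eq_sum_Icc] at h
  push_cast at h
  exact h

private theorem ltau_aV (V m : ℕ) : |aV V m| ≤ (m.divisors.card : ℝ) := by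
  unfold aV
  refine (Finset.abs_sum_le_sum_abs _ _).trans ?_
  have h1 : ∀ b ∈ m.divisors.filter (fun b => V < b), |((ArithmeticFunction.moebius b : ℤ) : ℝ)| ≤ 1 := by
    intro b _
    have := ArithmeticFunction.abs_moebius_le_one (n := b)
    exact_mod_cast this
  refine (Finset.sum_le_sum h1).trans ?_
  rw [Finset.sum_const, nsmul_eq_mul, mul_one]
  exact_mod_cast Finset.card_filter_le _ _

theorem TAU : TauStmt := by
  intro V M hM
  have h1 : ∀ m ∈ Finset.Icc 1 M, (aV V m) ^ 2 ≤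
      ∑ t ∈ (Finset.Icc 1 M) ×ˢ ((Finset.Icc 1 M) ×ˢ (Finset.Icc 1 M)),
        if t.1 * (t.2.1 * t.2.2) ∣ m then (1 : ℝ) else 0 := by
    intro m hm
    have h2 := ltau_aV V m
    have h3 : (aV V m) ^ 2 ≤ (m.divisors.card : ℝ) ^ 2 := by
      rw [← sq_abs (aV V m)]
      exact pow_le_pow_left₀ (abs_nonneg _) h2 2
    refine h3.trans ?_
    rw [Finset.sum_boole]
    exact_mod_cast ltau_card m M hm
  refine (Finset.sum_le_sum h1).trans ?_
  rw [Finset.sum_comm]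
  have h4 : ∀ t ∈ (Finset.Icc 1 M) ×ˢ ((Finset.Icc 1 M) ×ˢ (Finset.Icc 1 M)),
      ∑ m ∈ Finset.Icc 1 M, (if t.1 * (t.2.1 * t.2.2) ∣ m then (1 : ℝ) else 0) ≤
        (M : ℝ) * ((t.1 : ℝ)⁻¹ * ((t.2.1 : ℝ)⁻¹ * (t.2.2 : ℝ)⁻¹)) := by
    intro t ht
    simp only [Finset.mem_product, Finset.mem_Icc] at ht
    rw [Finset.sum_boole]
    refine (ltau_count M _ ?_).trans (le_of_eq ?_)
    · exact Nat.mul_pos ht.1.1 (Nat.mul_pos ht.2.1.1 ht.2.2.1)
    · push_cast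
      rw [mul_inv, mul_inv]
  refine (Finset.sum_le_sum h4).trans ?_
  rw [← Finset.mul_sum]
  have h5 : ∑ t ∈ (Finset.Icc 1 M) ×ˢ ((Finset.Icc 1 M) ×ˢ (Finset.Icc 1 M)),
      ((t.1 : ℝ)⁻¹ * ((t.2.1 : ℝ)⁻¹ * (t.2.2 : ℝ)⁻¹)) =
      (∑ g ∈ Finset.Icc 1 M, ((g : ℝ))⁻¹) ^ 3 := by
    rw [Finset.sum_product, pow_succ', sq, Finset.sum_mul_sum, Finset.sum_mul]
    refine Finset.sum_congr rfl fun g _ => ?_
    rw [Finset.sum_product, Finset.mul_sum]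
    refine Finset.sum_congr rfl fun a _ => ?_
    rw [Finset.mul_sum]
  rw [h5]
  have h6 := ltau_harm M
  have h7 : 0 ≤ ∑ g ∈ Finset.Icc 1 M, ((g : ℝ))⁻¹ := Finset.sum_nonneg fun g _ => by positivity
  exact mul_le_mul_of_nonneg_left (pow_le_pow_left₀ h7 h6 3) (Nat.cast_nonneg M)

end Pool.PrT
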