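import Pool.Agent.Lib.PrT.LPsl

/-!
# LTypI (about 130 lines): the sums of type I
Let `C1` be the constant of `hV φ hφ`, `r ≥ 2`, `ψ` primitive. `ψ ((b * m : ℕ)) = ψ b * ψ m`
(`Nat.cast_mul`, `map_mul`), `‖ψ b‖ ≤ 1` (`DirichletCharacter.norm_le_one`).
First sum: `hP r ψ` with `g m = log m * wt φ X (b * m)` gives for `b ≥ 1`
`‖∑_m log m wt ψ (b m)‖ ≤ r * C1 * (1 + log X)`, and `|μ b| ≤ 1`: in total `≤ V * r * C1 * (1 + log X)`.
Second sum: `hP` with `g m = wt φ X (d * m)`: `≤ r * C1` for every `d ≥ 1`, and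
`|cUV U V d| ≤ ∑_{p ∈ d.divisorsAntidiagonal} Λ p.2 = log d ≤ log (U V) ≤ 2 log X` for
`1 ≤ d ≤ U V` (`ArithmeticFunction.vonMangoldt_sum`; `|μ| ≤ 1`; `Nat.map_div_left_divisors` or
`Nat.sum_divisorsAntidiagonal'`): in total `≤ U * V * 2 log X * r * C1`.
So for every primitive `ψ` of conductor `2 ≤ r ≤ R` the norm sum is `≤ 6 C1 * R * (U + 1) * V * log X`
(`1 + log X ≤ 3 log X` for `X ≥ 2` because `log 2 ≥ 1/2`). The number of characters mod `r` is at most
`r ≤ R` (see how `LogCh` does it, or `Nat.card`/`DirichletCharacter` card = `totient r ≤ r`: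
`DirichletCharacter.card_eq_totient_of_hasEnoughRootsOfUnity`), and there are at most `R` values of
`r`: `PS ≤ 6 C1 * R ^ 3 * (U + 1) * V * log X`.
Useful general lemma: if `F r ψ ≤ B` for all `2 ≤ r ≤ R`, `ψ` primitive, `0 ≤ B` then
`PS R F ≤ R ^ 2 * B` (`PS_le` of `LPsl.lean`, use it: `import Pool.Agent.Lib.PrT.LPsl`).
-/

set_option autoImplicit false

namespace Pool.PrT

open Real

private theorem cUV_le (U V d : ℕ) : |cUV U V d| ≤ Real.log d := by
  have h1 : |cUV U V d| ≤ ∑ p ∈ d.divisorsAntidiagonal, ArithmeticFunction.vonMangoldt p.2 := by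
    unfold cUV
    calc |∑ p ∈ d.divisorsAntidiagonal.filter (fun p => p.1 ≤ V ∧ p.2 ≤ U),
          (ArithmeticFunction.moebius p.1 : ℝ) * ArithmeticFunction.vonMangoldt p.2|
        ≤ ∑ p ∈ d.divisorsAntidiagonal.filter (fun p => p.1 ≤ V ∧ p.2 ≤ U),
          |(ArithmeticFunction.moebius p.1 : ℝ) * ArithmeticFunction.vonMangoldt p.2| :=
          Finset.abs_sum_le_sum_abs _ _
      _ ≤ ∑ p ∈ d.divisorsAntidiagonal.filter (fun p => p.1 ≤ V ∧ p.2 ≤ U),
          ArithmeticFunction.vonMangoldt p.2 := by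
          apply Finset.sum_le_sum
          intro p _
          rw [abs_mul, abs_of_nonneg (ArithmeticFunction.vonMangoldt_nonneg)]
          have h2 : |(ArithmeticFunction.moebius p.1 : ℝ)| ≤ 1 := by
            exact_mod_cast ArithmeticFunction.abs_moebius_le_one (n := p.1)
          nlinarith [ArithmeticFunction.vonMangoldt_nonneg (n := p.2)]
      _ ≤ ∑ p ∈ d.divisorsAntidiagonal, ArithmeticFunction.vonMangoldt p.2 := by
          apply Finset.sum_le_sum_of_subset_of_nonneg (Finset.filter_subset _ _)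
          intro p _ _
          exact ArithmeticFunction.vonMangoldt_nonneg
  rw [Nat.sum_divisorsAntidiagonal' (f := fun _ c => ArithmeticFunction.vonMangoldt c),
    ArithmeticFunction.vonMangoldt_sum] at h1
  exact h1

theorem TYPI (hP : ParStmt) (hV : VarStmt) : TypIStmt := by
  intro φ hφ
  obtain ⟨C1, hC1, hvar⟩ := hV φ hφ
  refine ⟨3 * C1, by positivity, ?_⟩
  intro X R U V N hX hUX hVX
  have hlog : 1 / 2 ≤ Real.log X := by
    have h1 : Real.log 2 ≤ Real.log X := Real.log_le_log (by norm_num) hX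
    have h2 := Real.log_two_gt_d9
    linarith
  have hX1 : 1 ≤ X := by linarith
  have key : ∀ r ∈ Finset.Icc 2 R, ∀ ψ : DirichletCharacter ℂ r, ψ.IsPrimitive →
      ‖∑ b ∈ Finset.Icc 1 V, (ArithmeticFunction.moebius b : ℂ) * ∑ m ∈ Finset.Icc 1 N,
        (Real.log m : ℂ) * ((wt φ X (b * m) : ℂ) * ψ ((b * m : ℕ) : ZMod r))‖ +
      ‖∑ d ∈ Finset.Icc 1 (U * V), (cUV U V d : ℂ) * ∑ m ∈ Finset.Icc 1 N,
        ((wt φ X (d * m) : ℂ) * ψ ((d * m : ℕ) : ZMod r))‖ ≤
      3 * C1 * R * ((U : ℝ) + 1) * V * Real.log X := by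
    intro r hr ψ hψ
    have hr2 := (Finset.mem_Icc.1 hr).1
    have hrR : (r : ℝ) ≤ R := by exact_mod_cast (Finset.mem_Icc.1 hr).2
    have hr0 : (0 : ℝ) ≤ r := Nat.cast_nonneg r
    have A1 : ∀ b ∈ Finset.Icc 1 V, ‖(ArithmeticFunction.moebius b : ℂ) * ∑ m ∈ Finset.Icc 1 N,
        (Real.log m : ℂ) * ((wt φ X (b * m) : ℂ) * ψ ((b * m : ℕ) : ZMod r))‖ ≤
        r * (C1 * (1 + Real.log X)) := by
      intro b hb
      have hb1 := (Finset.mem_Icc.1 hb).1
      have h1 : ∑ m ∈ Finset.Icc 1 N,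
          (Real.log m : ℂ) * ((wt φ X (b * m) : ℂ) * ψ ((b * m : ℕ) : ZMod r)) =
          ψ ((b : ℕ) : ZMod r) * ∑ m ∈ Finset.Icc 1 N,
            (((Real.log m * wt φ X (b * m) : ℝ)) : ℂ) * ψ ((m : ℕ) : ZMod r) := by
        rw [Finset.mul_sum]
        apply Finset.sum_congr rfl
        intro m _
        rw [Nat.cast_mul, map_mul]
        push_cast
        ring
      have h2 := hP r ψ hr2 hψ N (fun m => Real.log m * wt φ X (b * m))
      have h3 := (hvar X b N hX1 hb1).2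
      have h4 : ‖(ArithmeticFunction.moebius b : ℂ)‖ ≤ 1 := by
        rw [Complex.norm_intCast]
        exact_mod_cast ArithmeticFunction.abs_moebius_le_one (n := b)
      have h5 : ‖ψ ((b : ℕ) : ZMod r)‖ ≤ 1 := DirichletCharacter.norm_le_one ψ _
      rw [norm_mul, h1, norm_mul]
      have h6 : ‖∑ m ∈ Finset.Icc 1 N,
            (((Real.log m * wt φ X (b * m) : ℝ)) : ℂ) * ψ ((m : ℕ) : ZMod r)‖ ≤
          r * (C1 * (1 + Real.log X)) :=
        h2.trans (mul_le_mul_of_nonneg_left h3 hr0)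
      calc ‖(ArithmeticFunction.moebius b : ℂ)‖ * (‖ψ ((b : ℕ) : ZMod r)‖ * _)
          ≤ 1 * (1 * (r * (C1 * (1 + Real.log X)))) := by
            apply mul_le_mul h4 _ (by positivity) (by norm_num)
            exact mul_le_mul h5 h6 (norm_nonneg _) (by norm_num)
        _ = _ := by ring
    have A2 : ∀ d ∈ Finset.Icc 1 (U * V), ‖(cUV U V d : ℂ) * ∑ m ∈ Finset.Icc 1 N,
        ((wt φ X (d * m) : ℂ) * ψ ((d * m : ℕ) : ZMod r))‖ ≤
        2 * Real.log X * (r * C1) := by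
      intro d hd
      have hd1 := (Finset.mem_Icc.1 hd).1
      have hd2 := (Finset.mem_Icc.1 hd).2
      have h1 : ∑ m ∈ Finset.Icc 1 N,
          ((wt φ X (d * m) : ℂ) * ψ ((d * m : ℕ) : ZMod r)) =
          ψ ((d : ℕ) : ZMod r) * ∑ m ∈ Finset.Icc 1 N,
            (((wt φ X (d * m) : ℝ)) : ℂ) * ψ ((m : ℕ) : ZMod r) := by
        rw [Finset.mul_sum]
        apply Finset.sum_congr rfl
        intro m _
        rw [Nat.cast_mul, map_mul]
        ring
      have h2 := hP r ψ hr2 hψ N (fun m => wt φ X (d * m))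
      have h3 := (hvar X d N hX1 hd1).1
      have h4 : ‖(cUV U V d : ℂ)‖ ≤ 2 * Real.log X := by
        rw [Complex.norm_real, Real.norm_eq_abs]
        refine (cUV_le U V d).trans ?_
        have h7 : (d : ℝ) ≤ X * X := by
          have h8 : (d : ℝ) ≤ (U : ℝ) * V := by exact_mod_cast hd2
          exact h8.trans (mul_le_mul hUX hVX (Nat.cast_nonneg _) (by linarith))
        have h9 : Real.log d ≤ Real.log (X * X) :=
          Real.log_le_log (by exact_mod_cast hd1) h7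
        rw [Real.log_mul (by linarith) (by linarith)] at h9
        linarith
      have h5 : ‖ψ ((d : ℕ) : ZMod r)‖ ≤ 1 := DirichletCharacter.norm_le_one ψ _
      rw [norm_mul, h1, norm_mul]
      have h6 : ‖∑ m ∈ Finset.Icc 1 N,
            (((wt φ X (d * m) : ℝ)) : ℂ) * ψ ((m : ℕ) : ZMod r)‖ ≤ r * C1 :=
        h2.trans (mul_le_mul_of_nonneg_left h3 hr0)
      calc ‖(cUV U V d : ℂ)‖ * (‖ψ ((d : ℕ) : ZMod r)‖ * _)
          ≤ 2 * Real.log X * (1 * (r * C1)) := by
            apply mul_le_mul h4 _ (by positivity) (by linarith)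
            exact mul_le_mul h5 h6 (norm_nonneg _) (by norm_num)
        _ = _ := by ring
    have B1 : ‖∑ b ∈ Finset.Icc 1 V, (ArithmeticFunction.moebius b : ℂ) * ∑ m ∈ Finset.Icc 1 N,
        (Real.log m : ℂ) * ((wt φ X (b * m) : ℂ) * ψ ((b * m : ℕ) : ZMod r))‖ ≤
        V * (r * (C1 * (1 + Real.log X))) := by
      refine (norm_sum_le_of_le _ A1).trans ?_
      rw [Finset.sum_const, nsmul_eq_mul, Nat.card_Icc, Nat.add_sub_cancel]
    have B2 : ‖∑ d ∈ Finset.Icc 1 (U * V), (cUV U V d : ℂ) * ∑ m ∈ Finset.Icc 1 N,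
        ((wt φ X (d * m) : ℂ) * ψ ((d * m : ℕ) : ZMod r))‖ ≤
        ((U : ℝ) * V) * (2 * Real.log X * (r * C1)) := by
      refine (norm_sum_le_of_le _ A2).trans ?_
      rw [Finset.sum_const, nsmul_eq_mul, Nat.card_Icc, Nat.add_sub_cancel, Nat.cast_mul]
    have hU0 : (0 : ℝ) ≤ U := Nat.cast_nonneg _
    have hV0 : (0 : ℝ) ≤ V := Nat.cast_nonneg _
    have hL0 : 0 ≤ Real.log X := by linarith
    have s1 : (V : ℝ) * (r * (C1 * (1 + Real.log X))) + ((U : ℝ) * V) * (2 * Real.log X * (r * C1)) =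
        r * (C1 * V * ((1 + Real.log X) + 2 * U * Real.log X)) := by ring
    have s2 : (1 + Real.log X) + 2 * U * Real.log X ≤ 3 * ((U : ℝ) + 1) * Real.log X := by
      nlinarith [mul_nonneg hU0 hL0]
    have s3 : C1 * V * ((1 + Real.log X) + 2 * U * Real.log X) ≤
        C1 * V * (3 * ((U : ℝ) + 1) * Real.log X) :=
      mul_le_mul_of_nonneg_left s2 (by positivity)
    have s4 : (0 : ℝ) ≤ C1 * V * (3 * ((U : ℝ) + 1) * Real.log X) := by positivity
    calc _ ≤ (V : ℝ) * (r * (C1 * (1 + Real.log X))) +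
          ((U : ℝ) * V) * (2 * Real.log X * (r * C1)) := add_le_add B1 B2
      _ = r * (C1 * V * ((1 + Real.log X) + 2 * U * Real.log X)) := s1
      _ ≤ r * (C1 * V * (3 * ((U : ℝ) + 1) * Real.log X)) := mul_le_mul_of_nonneg_left s3 hr0
      _ ≤ R * (C1 * V * (3 * ((U : ℝ) + 1) * Real.log X)) := mul_le_mul_of_nonneg_right hrR s4
      _ = 3 * C1 * R * ((U : ℝ) + 1) * V * Real.log X := by ring
  have hB0 : (0 : ℝ) ≤ 3 * C1 * R * ((U : ℝ) + 1) * V * Real.log X := by
    have hL0 : 0 ≤ Real.log X := by linarith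
    positivity
  refine (PS_le hB0 key).trans (le_of_eq ?_)
  ring

end Pool.PrT
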