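import Pool.Agent.Lib.PrT.LPsl

/-!
# LTypII (about 170 lines): the sums of type II
Fix `ψ` and write `T(m, c) = aV V m * Λ c * (wt φ X (m c) * ψ (m c))`. DYADIC BLOCKS: for `j : ℕ` put
`M_j = 2 ^ j * V`, `J = Nat.log 2 N + 1`, so `Ioc V N = ⋃_{j < J} (Ioc M_j (2 M_j)) ∩ Ioc V N`
(disjoint; `2 ^ J V > N` because `V ≥ R² ≥ 1`). For `m ∈ Ioc M_j (2 M_j)` and `c > N_j`,
`N_j := ⌊3 X / M_j⌋₊`, one has `m c > 3 X`, so `wt φ X (m c) = 0` (`log 3 > 19/20`: `exp 1 < 3`, in fact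
`log 3 ≥ 1`). So the block sum is `∑_{m ∈ Icc 1 (2 M_j)} ∑_{c ∈ Icc 1 N_j} a m * b c * (wt * ψ)` with
`a m = aV V m` if `M_j < m ∧ m ≤ N`, else `0`, `b c = Λ c` if `U < c ∧ c ≤ N`, else `0`.
If `N_j ≤ U` it vanishes. Otherwise `R² ≤ U < N_j`, `R² ≤ V ≤ M_j` and `hS` gives
`PS (block) ≤ C √((2 M_j + R²) ∑ a²) √((N_j + R²) ∑ b²) ≤ C √(3 M_j * 2 M_j (1 + log (2 M_j))³) *
√(2 N_j * N_j (log N_j)²)` (`hT V (2 M_j)`, `Λ c ≤ log c ≤ log N_j`)
`≤ C * 4 * M_j N_j * (1 + log (2 M_j)) ^ (3/2) * log N_j ≤ 12 C X (1 + log (6 X)) ^ (5/2)`,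
using `M_j N_j ≤ 3 X`, `2 M_j ≤ 2 N ≤ 6 X` (blocks with `M_j ≥ N` are empty), `N_j ≤ 3 X`.
(To avoid rational powers: `(1 + log (6X))³ ≤ (1 + log (6X))⁴`, so `√.. ≤ M_j * √6 * (1 + log (6 X))²`,
which gives `≤ C' X (1 + log (6X))³` per block.)
Number of blocks `J ≤ log (3X) / log 2 + 1 ≤ 2 (1 + log (6 X))`. Finally
`1 + log (6 X) ≤ C'' log X` for `X ≥ 2`. Total `≤ C X (log X) ^ 4`. (`PS` of a sum of norms: triangle
inequality inside, `PS_mono`, `PS_sum` of `LPsl.lean`.)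
-/

set_option autoImplicit false

namespace Pool.PrT

open Real

private theorem l2_wt_large {φ : ℝ → ℝ} (hφ : Hoh.Bump φ) {X : ℝ} (hX : 0 < X) {n : ℕ}
    (h : 3 * X ≤ n) : wt φ X n = 0 := by
  unfold wt
  apply hφ.zero
  right
  have h1 : Real.log 3 ≤ Real.log ((n : ℝ) / X) := by
    apply Real.log_le_log (by norm_num)
    rw [le_div_iff₀ hX]
    exact h
  have h2 := Real.log_three_gt_d9
  linarith

private theorem l2_block {φ : ℝ → ℝ} (hφ : Hoh.Bump φ) {X : ℝ} (hX : 0 < X) (U V N M : ℕ)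
    (hM : 1 ≤ M) {r : ℕ} (ψ : DirichletCharacter ℂ r) :
    ∑ m ∈ Finset.Ioc M (2 * M), (if m ≤ N then ∑ c ∈ Finset.Ioc U N,
      (aV V m : ℂ) * (ArithmeticFunction.vonMangoldt c : ℂ) *
        ((wt φ X (m * c) : ℂ) * ψ ((m * c : ℕ) : ZMod r)) else 0) =
    ∑ m ∈ Finset.Icc 1 (2 * M), ∑ c ∈ Finset.Icc 1 ⌊3 * X / M⌋₊,
      (if M < m ∧ m ≤ N then (aV V m : ℂ) else 0) *
      (if U < c ∧ c ≤ N then (ArithmeticFunction.vonMangoldt c : ℂ) else 0) *
        ((wt φ X (m * c) : ℂ) * ψ ((m * c : ℕ) : ZMod r)) := by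
  have hsub : Finset.Ioc M (2 * M) ⊆ Finset.Icc 1 (2 * M) := by
    intro m hm
    rw [Finset.mem_Ioc] at hm
    rw [Finset.mem_Icc]
    omega
  rw [← Finset.sum_subset hsub]
  · refine Finset.sum_congr rfl fun m hm => ?_
    have hm1 := (Finset.mem_Ioc.1 hm).1
    by_cases hmN : m ≤ N
    · rw [if_pos hmN]
      set g : ℕ → ℂ := fun c => (aV V m : ℂ) * (ArithmeticFunction.vonMangoldt c : ℂ) *
        ((wt φ X (m * c) : ℂ) * ψ ((m * c : ℕ) : ZMod r)) with hg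
      have hL : ∑ c ∈ Finset.Ioc U N, g c =
          ∑ c ∈ (Finset.Ioc U N).filter (fun c => c ≤ ⌊3 * X / M⌋₊), g c := by
        symm
        apply Finset.sum_subset (Finset.filter_subset _ _)
        intro c hc hc2
        have hc3 : ⌊3 * X / M⌋₊ < c := by
          by_contra hcon
          push Not at hcon
          exact hc2 (Finset.mem_filter.2 ⟨hc, hcon⟩)
        have hc4 : 3 * X / M < c := (Nat.floor_lt (by positivity)).1 hc3
        have hMr : (0 : ℝ) < M := by exact_mod_cast hM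
        rw [div_lt_iff₀ hMr] at hc4
        have hc5 : 3 * X ≤ ((m * c : ℕ) : ℝ) := by
          push_cast
          have : (M : ℝ) ≤ m := by exact_mod_cast hm1.le
          have hc0 : (0 : ℝ) ≤ c := by positivity
          nlinarith
        simp only [hg]
        rw [l2_wt_large hφ hX hc5]
        simp
      have hR : ∑ c ∈ Finset.Icc 1 ⌊3 * X / M⌋₊,
          (if M < m ∧ m ≤ N then (aV V m : ℂ) else 0) *
          (if U < c ∧ c ≤ N then (ArithmeticFunction.vonMangoldt c : ℂ) else 0) *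
            ((wt φ X (m * c) : ℂ) * ψ ((m * c : ℕ) : ZMod r)) =
          ∑ c ∈ (Finset.Icc 1 ⌊3 * X / M⌋₊).filter (fun c => U < c ∧ c ≤ N), g c := by
        rw [Finset.sum_filter]
        refine Finset.sum_congr rfl fun c _ => ?_
        rw [if_pos ⟨hm1, hmN⟩]
        split_ifs with h
        · rfl
        · simp
      rw [hL, hR]
      refine Finset.sum_congr ?_ fun _ _ => rfl
      ext c
      simp only [Finset.mem_filter, Finset.mem_Ioc, Finset.mem_Icc]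
      omega
    · rw [if_neg hmN]
      symm
      refine Finset.sum_eq_zero fun c _ => ?_
      rw [if_neg (fun h => hmN h.2)]
      simp
  · intro m hm hm2
    refine Finset.sum_eq_zero fun c _ => ?_
    rw [if_neg]
    · simp
    · intro h
      apply hm2
      rw [Finset.mem_Ioc]
      exact ⟨h.1, (Finset.mem_Icc.1 hm).2⟩

private theorem l2_split (g : ℕ → ℂ) (V J : ℕ) :
    ∑ m ∈ Finset.Ioc V (2 ^ J * V), g m =
      ∑ j ∈ Finset.range J, ∑ m ∈ Finset.Ioc (2 ^ j * V) (2 * (2 ^ j * V)), g m := by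
  induction J with
  | zero => simp
  | succ J ih =>
    rw [Finset.sum_range_succ, ← ih]
    have e : 2 ^ (J + 1) * V = 2 * (2 ^ J * V) := by ring
    rw [e]
    rw [← Finset.sum_union]
    · refine Finset.sum_congr ?_ fun _ _ => rfl
      have h1 : V ≤ 2 ^ J * V := Nat.le_mul_of_pos_left V (by positivity)
      ext m
      simp only [Finset.mem_union, Finset.mem_Ioc]
      omega
    · rw [Finset.disjoint_left]
      intro m hm hm2
      rw [Finset.mem_Ioc] at hm hm2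
      omega

private theorem l2_a (hT : TauStmt) (V N M : ℕ) (hM : 1 ≤ M) :
    ∑ m ∈ Finset.Icc 1 (2 * M), ‖(if M < m ∧ m ≤ N then (aV V m : ℂ) else 0)‖ ^ 2 ≤
      (2 * (M : ℝ)) * (1 + Real.log (2 * M)) ^ 3 := by
  have h := hT V (2 * M) (by omega)
  push_cast at h
  refine le_trans (Finset.sum_le_sum fun m _ => ?_) h
  split_ifs with h1
  · rw [Complex.norm_real, Real.norm_eq_abs, sq_abs]
  · simp
    positivity

private theorem l2_b (U N K : ℕ) :
    ∑ c ∈ Finset.Icc 1 K, ‖(if U < c ∧ c ≤ N then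
      (ArithmeticFunction.vonMangoldt c : ℂ) else 0)‖ ^ 2 ≤ (K : ℝ) * (Real.log K) ^ 2 := by
  calc ∑ c ∈ Finset.Icc 1 K, ‖(if U < c ∧ c ≤ N then
      (ArithmeticFunction.vonMangoldt c : ℂ) else 0)‖ ^ 2
      ≤ ∑ _c ∈ Finset.Icc 1 K, (Real.log K) ^ 2 := by
        refine Finset.sum_le_sum fun c hc => ?_
        rw [Finset.mem_Icc] at hc
        split_ifs with h1
        · rw [Complex.norm_real, Real.norm_eq_abs,
            abs_of_nonneg ArithmeticFunction.vonMangoldt_nonneg]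
          apply pow_le_pow_left₀ ArithmeticFunction.vonMangoldt_nonneg
          refine ArithmeticFunction.vonMangoldt_le_log.trans ?_
          apply Real.log_le_log
          · exact_mod_cast hc.1
          · exact_mod_cast hc.2
        · simp
          positivity
    _ = (K : ℝ) * (Real.log K) ^ 2 := by
        rw [Finset.sum_const, nsmul_eq_mul, Nat.card_Icc]
        simp

private theorem l2_blockBound (hT : TauStmt) {C : ℝ} (hC : 0 < C) {X : ℝ} (hX : 2 ≤ X)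
    (R U V N M : ℕ) (hRU : R ^ 2 ≤ U) (hRM : R ^ 2 ≤ M) (hM : 1 ≤ M) (hN : (N : ℝ) ≤ 3 * X) :
    C * √((((2 * M : ℕ) : ℝ) + (R : ℝ) ^ 2) * ∑ m ∈ Finset.Icc 1 (2 * M),
      ‖(if M < m ∧ m ≤ N then (aV V m : ℂ) else 0)‖ ^ 2) *
      √((((⌊3 * X / M⌋₊ : ℕ) : ℝ) + (R : ℝ) ^ 2) * ∑ c ∈ Finset.Icc 1 ⌊3 * X / M⌋₊,
        ‖(if U < c ∧ c ≤ N then (ArithmeticFunction.vonMangoldt c : ℂ) else 0)‖ ^ 2) ≤
      C * (12 * X * (1 + Real.log (6 * X)) ^ 3) := by
  have hMr : (1 : ℝ) ≤ M := by exact_mod_cast hM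
  have hL0 : 0 ≤ Real.log (6 * X) := Real.log_nonneg (by linarith)
  set K : ℕ := ⌊3 * X / M⌋₊ with hK
  have hK1 : (K : ℝ) ≤ 3 * X / M := Nat.floor_le (by positivity)
  have hMK : (M : ℝ) * K ≤ 3 * X := by
    rw [le_div_iff₀ (by linarith)] at hK1
    linarith
  have hrhs : 0 ≤ C * (12 * X * (1 + Real.log (6 * X)) ^ 3) := by positivity
  by_cases hMN : N ≤ M
  · have h0 : ∑ m ∈ Finset.Icc 1 (2 * M),
      ‖(if M < m ∧ m ≤ N then (aV V m : ℂ) else 0)‖ ^ 2 = 0 := by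
      refine Finset.sum_eq_zero fun m _ => ?_
      rw [if_neg (by omega)]
      simp
    rw [h0]
    simpa using hrhs
  push Not at hMN
  by_cases hUK : K ≤ U
  · have h0 : ∑ c ∈ Finset.Icc 1 K,
        ‖(if U < c ∧ c ≤ N then (ArithmeticFunction.vonMangoldt c : ℂ) else 0)‖ ^ 2 = 0 := by
      refine Finset.sum_eq_zero fun c hc => ?_
      rw [Finset.mem_Icc] at hc
      rw [if_neg (by omega)]
      simp
    rw [h0]
    simpa using hrhs
  push Not at hUK
  set L : ℝ := 1 + Real.log (6 * X) with hL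
  have hL1 : 1 ≤ L := by linarith
  have hMN' : (M : ℝ) ≤ 3 * X := by
    have : (M : ℝ) ≤ N := by exact_mod_cast hMN.le
    linarith
  have hlog1 : 1 + Real.log (2 * M) ≤ L := by
    have : Real.log (2 * M) ≤ Real.log (6 * X) := Real.log_le_log (by positivity) (by linarith)
    linarith
  have hlog1' : 0 ≤ 1 + Real.log (2 * M) := by
    have : 0 ≤ Real.log (2 * (M : ℝ)) := Real.log_nonneg (by linarith)
    linarith
  have hK0 : 1 ≤ K := by omega
  have hKr : (1 : ℝ) ≤ K := by exact_mod_cast hK0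
  have hK3 : (K : ℝ) ≤ 3 * X := by nlinarith
  have hlog2 : Real.log K ≤ L := by
    have : Real.log K ≤ Real.log (6 * X) := Real.log_le_log (by linarith) (by linarith)
    linarith
  have hlog2' : 0 ≤ Real.log K := Real.log_nonneg hKr
  have hR1 : (R : ℝ) ^ 2 ≤ M := by exact_mod_cast hRM
  have hR2 : (R : ℝ) ^ 2 ≤ K := by exact_mod_cast (hRU.trans hUK.le)
  have s1 : √((((2 * M : ℕ) : ℝ) + (R : ℝ) ^ 2) * ∑ m ∈ Finset.Icc 1 (2 * M),
      ‖(if M < m ∧ m ≤ N then (aV V m : ℂ) else 0)‖ ^ 2) ≤ √6 * M * L ^ 2 := by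
    apply Real.sqrt_le_iff.2
    constructor
    · positivity
    · have h1 := l2_a hT V N M hM
      have h2 : (2 * (M : ℝ)) * (1 + Real.log (2 * M)) ^ 3 ≤ (2 * (M : ℝ)) * L ^ 4 := by
        apply mul_le_mul_of_nonneg_left _ (by positivity)
        calc (1 + Real.log (2 * M)) ^ 3 ≤ L ^ 3 := pow_le_pow_left₀ hlog1' hlog1 3
          _ ≤ L ^ 4 := pow_le_pow_right₀ hL1 (by norm_num)
      have h3 : (((2 * M : ℕ) : ℝ) + (R : ℝ) ^ 2) ≤ 3 * M := by
        push_cast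
        linarith
      calc (((2 * M : ℕ) : ℝ) + (R : ℝ) ^ 2) * ∑ m ∈ Finset.Icc 1 (2 * M),
          ‖(if M < m ∧ m ≤ N then (aV V m : ℂ) else 0)‖ ^ 2
          ≤ (3 * M) * ((2 * (M : ℝ)) * L ^ 4) := by
            apply mul_le_mul h3 (h1.trans h2) _ (by positivity)
            exact Finset.sum_nonneg fun _ _ => by positivity
        _ = (√6 ^ 2) * M ^ 2 * (L ^ 2) ^ 2 := by
            rw [Real.sq_sqrt (by norm_num)]
            ring
        _ = (√6 * M * L ^ 2) ^ 2 := by ring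
  have s2 : √(((K : ℝ) + (R : ℝ) ^ 2) * ∑ c ∈ Finset.Icc 1 K,
        ‖(if U < c ∧ c ≤ N then (ArithmeticFunction.vonMangoldt c : ℂ) else 0)‖ ^ 2) ≤
      √2 * K * L := by
    apply Real.sqrt_le_iff.2
    constructor
    · positivity
    · have h1 := l2_b U N K
      have h2 : (K : ℝ) * (Real.log K) ^ 2 ≤ K * L ^ 2 := by
        apply mul_le_mul_of_nonneg_left _ (by positivity)
        exact pow_le_pow_left₀ hlog2' hlog2 2
      calc ((K : ℝ) + (R : ℝ) ^ 2) * ∑ c ∈ Finset.Icc 1 K,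
          ‖(if U < c ∧ c ≤ N then (ArithmeticFunction.vonMangoldt c : ℂ) else 0)‖ ^ 2
          ≤ (2 * K) * (K * L ^ 2) := by
            apply mul_le_mul (by linarith) (h1.trans h2) _ (by positivity)
            exact Finset.sum_nonneg fun _ _ => by positivity
        _ = (√2 ^ 2) * K ^ 2 * L ^ 2 := by
            rw [Real.sq_sqrt (by norm_num)]
            ring
        _ = (√2 * K * L) ^ 2 := by ring
  have hs : √6 * √2 ≤ 4 := by
    rw [← Real.sqrt_mul (by norm_num)]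
    apply Real.sqrt_le_iff.2
    constructor <;> norm_num
  calc C * √((((2 * M : ℕ) : ℝ) + (R : ℝ) ^ 2) * ∑ m ∈ Finset.Icc 1 (2 * M),
      ‖(if M < m ∧ m ≤ N then (aV V m : ℂ) else 0)‖ ^ 2) *
      √(((K : ℝ) + (R : ℝ) ^ 2) * ∑ c ∈ Finset.Icc 1 K,
        ‖(if U < c ∧ c ≤ N then (ArithmeticFunction.vonMangoldt c : ℂ) else 0)‖ ^ 2)
      ≤ C * (√6 * M * L ^ 2) * (√2 * K * L) := by gcongr
    _ = C * ((√6 * √2) * ((M * K) * L ^ 3)) := by ring
    _ ≤ C * (4 * ((3 * X) * L ^ 3)) := by gcongr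
    _ = C * (12 * X * L ^ 3) := by ring

theorem TYPII (hS : SepStmt) (hT : TauStmt) : TypIIStmt := by
  intro φ hφ
  obtain ⟨C, hC, H⟩ := hS φ hφ
  refine ⟨C * 24 * 1296, by positivity, ?_⟩
  intro X R U V N hX hR hRU hRV hN
  have hX0 : 0 < X := by linarith
  have hV1 : 1 ≤ V := le_trans (Nat.one_le_pow _ _ hR) hRV
  set J : ℕ := Nat.log 2 N + 1 with hJ
  have hNJ : N ≤ 2 ^ J * V := by
    have h1 : N < 2 ^ J := Nat.lt_pow_succ_log_self (by norm_num) N
    calc N ≤ 2 ^ J := h1.le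
      _ ≤ 2 ^ J * V := Nat.le_mul_of_pos_right _ (by omega)
  set L : ℝ := 1 + Real.log (6 * X) with hL
  have hL0 : 0 ≤ Real.log (6 * X) := Real.log_nonneg (by linarith)
  have hstep : ∀ (r : ℕ) (ψ : DirichletCharacter ℂ r),
      ‖∑ m ∈ Finset.Ioc V N, ∑ c ∈ Finset.Ioc U N,
        (aV V m : ℂ) * (ArithmeticFunction.vonMangoldt c : ℂ) *
          ((wt φ X (m * c) : ℂ) * ψ ((m * c : ℕ) : ZMod r))‖ ≤
      ∑ j ∈ Finset.range J, ‖∑ m ∈ Finset.Icc 1 (2 * (2 ^ j * V)),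
        ∑ c ∈ Finset.Icc 1 ⌊3 * X / ((2 ^ j * V : ℕ) : ℝ)⌋₊,
        (if 2 ^ j * V < m ∧ m ≤ N then (aV V m : ℂ) else 0) *
        (if U < c ∧ c ≤ N then (ArithmeticFunction.vonMangoldt c : ℂ) else 0) *
          ((wt φ X (m * c) : ℂ) * ψ ((m * c : ℕ) : ZMod r))‖ := by
    intro r ψ
    have h1 : ∑ m ∈ Finset.Ioc V N, ∑ c ∈ Finset.Ioc U N,
        (aV V m : ℂ) * (ArithmeticFunction.vonMangoldt c : ℂ) *
          ((wt φ X (m * c) : ℂ) * ψ ((m * c : ℕ) : ZMod r)) =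
        ∑ m ∈ Finset.Ioc V (2 ^ J * V), (if m ≤ N then ∑ c ∈ Finset.Ioc U N,
        (aV V m : ℂ) * (ArithmeticFunction.vonMangoldt c : ℂ) *
          ((wt φ X (m * c) : ℂ) * ψ ((m * c : ℕ) : ZMod r)) else 0) := by
      rw [← Finset.sum_filter]
      refine Finset.sum_congr ?_ fun _ _ => rfl
      ext m
      simp only [Finset.mem_filter, Finset.mem_Ioc]
      omega
    rw [h1, l2_split]
    refine (norm_sum_le _ _).trans (le_of_eq ?_)
    refine Finset.sum_congr rfl fun j _ => ?_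
    rw [l2_block hφ hX0 U V N (2 ^ j * V) (Nat.mul_pos (by positivity) (by omega)) ψ]
  have hPS : PS R (fun r ψ => ‖∑ m ∈ Finset.Ioc V N, ∑ c ∈ Finset.Ioc U N,
        (aV V m : ℂ) * (ArithmeticFunction.vonMangoldt c : ℂ) *
          ((wt φ X (m * c) : ℂ) * ψ ((m * c : ℕ) : ZMod r))‖) ≤
      ∑ j ∈ Finset.range J, PS R (fun r ψ => ‖∑ m ∈ Finset.Icc 1 (2 * (2 ^ j * V)),
        ∑ c ∈ Finset.Icc 1 ⌊3 * X / ((2 ^ j * V : ℕ) : ℝ)⌋₊,
        (if 2 ^ j * V < m ∧ m ≤ N then (aV V m : ℂ) else 0) *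
        (if U < c ∧ c ≤ N then (ArithmeticFunction.vonMangoldt c : ℂ) else 0) *
          ((wt φ X (m * c) : ℂ) * ψ ((m * c : ℕ) : ZMod r))‖) := by
    rw [← PS_sum]
    exact PS_mono fun r _ ψ _ => hstep r ψ
  have hblock : ∀ j ∈ Finset.range J, PS R (fun r ψ =>
        ‖∑ m ∈ Finset.Icc 1 (2 * (2 ^ j * V)),
        ∑ c ∈ Finset.Icc 1 ⌊3 * X / ((2 ^ j * V : ℕ) : ℝ)⌋₊,
        (if 2 ^ j * V < m ∧ m ≤ N then (aV V m : ℂ) else 0) *
        (if U < c ∧ c ≤ N then (ArithmeticFunction.vonMangoldt c : ℂ) else 0) *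
          ((wt φ X (m * c) : ℂ) * ψ ((m * c : ℕ) : ZMod r))‖) ≤
        C * (12 * X * L ^ 3) := by
    intro j _
    have hM1 : 1 ≤ 2 ^ j * V := Nat.mul_pos (by positivity) (by omega)
    have hRM : R ^ 2 ≤ 2 ^ j * V := hRV.trans (Nat.le_mul_of_pos_left V (by positivity))
    refine (H R (2 * (2 ^ j * V)) ⌊3 * X / ((2 ^ j * V : ℕ) : ℝ)⌋₊ X
      (fun m => if 2 ^ j * V < m ∧ m ≤ N then (aV V m : ℂ) else 0)
      (fun c => if U < c ∧ c ≤ N then (ArithmeticFunction.vonMangoldt c : ℂ) else 0)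
      hR hX0).trans ?_
    exact l2_blockBound hT hC hX R U V N (2 ^ j * V) hRU hRM hM1 hN
  have hJL : (J : ℝ) ≤ 2 * L := by
    rcases Nat.eq_zero_or_pos N with hN0 | hN0
    · have : J = 1 := by rw [hJ, hN0]; simp
      rw [this]
      push_cast
      linarith
    · have h1 : 2 ^ (Nat.log 2 N) ≤ N := Nat.pow_log_le_self 2 (by omega)
      have h2 : ((2 : ℝ) ^ (Nat.log 2 N)) ≤ 3 * X := by
        have : ((2 : ℝ) ^ (Nat.log 2 N)) ≤ N := by exact_mod_cast h1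
        linarith
      have h3 := Real.log_le_log (by positivity) h2
      rw [Real.log_pow] at h3
      have h4 : Real.log (3 * X) ≤ Real.log (6 * X) :=
        Real.log_le_log (by positivity) (by linarith)
      have h5 := Real.log_two_gt_d9
      have h6 : (0 : ℝ) ≤ (Nat.log 2 N : ℝ) := by positivity
      rw [hJ]
      push_cast
      nlinarith
  have hL6 : L ≤ 6 * Real.log X := by
    have h1 : Real.log (6 * X) = Real.log 2 + Real.log 3 + Real.log X := by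
      rw [← Real.log_mul (by norm_num) (by norm_num), ← Real.log_mul (by norm_num) hX0.ne']
      norm_num
    have h2 := Real.log_two_lt_d9
    have h3 := Real.log_three_lt_d9
    have h4 : Real.log 2 ≤ Real.log X := Real.log_le_log (by norm_num) hX
    have h5 := Real.log_two_gt_d9
    rw [hL, h1]
    linarith
  have hLpos : 0 ≤ L := by linarith
  calc PS R (fun r ψ => ‖∑ m ∈ Finset.Ioc V N, ∑ c ∈ Finset.Ioc U N,
        (aV V m : ℂ) * (ArithmeticFunction.vonMangoldt c : ℂ) *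
          ((wt φ X (m * c) : ℂ) * ψ ((m * c : ℕ) : ZMod r))‖)
      ≤ ∑ _j ∈ Finset.range J, C * (12 * X * L ^ 3) := hPS.trans (Finset.sum_le_sum hblock)
    _ = J * (C * (12 * X * L ^ 3)) := by rw [Finset.sum_const, nsmul_eq_mul, Finset.card_range]
    _ ≤ (2 * L) * (C * (12 * X * L ^ 3)) :=
        mul_le_mul_of_nonneg_right hJL (by positivity)
    _ = C * 24 * X * L ^ 4 := by ring
    _ ≤ C * 24 * X * (6 * Real.log X) ^ 4 := by
        apply mul_le_mul_of_nonneg_left _ (by positivity)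
        exact pow_le_pow_left₀ hLpos hL6 4
    _ = C * 24 * 1296 * X * Real.log X ^ 4 := by ring

end Pool.PrT
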