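import Pool.Agent.Lib.PrT.LDefs

/-!
# LVar (about 150 lines): the weights have bounded variation
ONLY MATHLIB (and the structure `Hoh.Bump`). `φ` is smooth with support in `[1/20, 19/20]`, so
`|φ x - φ y| ≤ K |x - y|` for some `K ≥ 0` (the derivative is continuous with compact support, or:
`φ` is `C^1` on the compact interval `[0, 1]` and zero outside; e.g.
`ContDiff.lipschitzWith_of_hasCompactSupport` gives a `LipschitzWith`), and `0 ≤ φ ≤ 1`.
`g m := wt φ X (d * m) = φ (log (d m / X))`, `log (d (m+1) / X) - log (d m / X) = log ((m+1)/m) ≤ 1/m`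
for `m ≥ 1`. If `g (m+1) ≠ g m` then one of them is `≠ 0`, so `X < d (m+1)` and `d m < 3 X`
(`log (n / X)` in `(0, 1)` and `e < 3`), i.e. `m ∈ J := {m ≥ 1 : X / d - 1 < m < 3 X / d}`.
SIMPLE COUNT: let `Y = X / d`. `|g (m+1) - g m| ≤ K / m` and `≤ 1`, so
`∑ ≤ ∑_{m ∈ J} min 1 (K / m)`. If `Y ≤ 2`: `J` has at most `6` elements: `≤ 6`. If `Y > 2`: every
`m ∈ J` is `> Y / 2`, `#J ≤ 2 Y + 2 ≤ 3 Y` (number of integers in an interval of length `2 Y + 1`, at
most `2Y + 2`), so the sum is `≤ 3 Y * K * 2 / Y = 6 K`. Total `≤ 6 + 6 K`, plus `|g N| ≤ 1`.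
(Other counts are welcome: any constant depending only on `φ` is fine.)
SECOND PART: `|log (m+1) g (m+1) - log m g m| ≤ log (m+1) |g (m+1) - g m| + |g m| (log (m+1) - log m)`;
the terms vanish unless `m ∈ J`, and then `log (m+1) ≤ log (3 X + 1) ≤ 2 + log X`, `|g m| ≤ 1`,
`log (m+1) - log m ≤ 1/m ≤ min 1 (1/m)`, so the second sum is bounded as above with `K = 1`;
`|log N g N| ≤ log (3 X)` (`g N = 0` unless `d N < 3 X`). `wt φ X 0 = φ (log 0) = φ 0 = 0`.
-/

set_option autoImplicit false

namespace Pool.PrT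

open Real

private theorem lvar_sum (h : ℕ → ℝ) (B X : ℝ) (hB : 0 ≤ B) (d N : ℕ) (hX : 1 ≤ X) (hd : 1 ≤ d)
    (h0 : ∀ m : ℕ, 1 ≤ m → 3 * X ≤ (d : ℝ) * m → h m = 0)
    (h1 : ∀ m : ℕ, 1 ≤ m → (d : ℝ) * m < 3 * X → |h m| ≤ B * (2 * d / X)) :
    ∑ m ∈ Finset.Ico 1 N, |h m| ≤ 6 * B := by
  classical
  have hd' : (0 : ℝ) < d := by exact_mod_cast hd
  have hX' : 0 < X := by linarith
  let S := (Finset.Ico 1 N).filter (fun m : ℕ => (d : ℝ) * m < 3 * X)
  have e1 : ∑ m ∈ Finset.Ico 1 N, |h m| = ∑ m ∈ S, |h m| := by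
    symm
    apply Finset.sum_subset (Finset.filter_subset _ _)
    intro m hm hmS
    have : 3 * X ≤ (d : ℝ) * m := by
      by_contra hlt
      exact hmS (Finset.mem_filter.2 ⟨hm, not_le.1 hlt⟩)
    rw [h0 m (Finset.mem_Ico.1 hm).1 this, abs_zero]
  have e2 : ∑ m ∈ S, |h m| ≤ S.card • (B * (2 * d / X)) := by
    apply Finset.sum_le_card_nsmul
    intro m hm
    obtain ⟨hm1, hm2⟩ := Finset.mem_filter.1 hm
    exact h1 m (Finset.mem_Ico.1 hm1).1 hm2
  have e3 : (S.card : ℝ) ≤ 3 * X / d := by
    have hsub : S ⊆ Finset.Icc 1 ⌊3 * X / d⌋₊ := by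
      intro m hm
      obtain ⟨hm1, hm2⟩ := Finset.mem_filter.1 hm
      rw [Finset.mem_Icc]
      refine ⟨(Finset.mem_Ico.1 hm1).1, Nat.le_floor ?_⟩
      rw [le_div_iff₀ hd']
      linarith
    calc (S.card : ℝ) ≤ ((Finset.Icc 1 ⌊3 * X / d⌋₊).card : ℝ) := by
          exact_mod_cast Finset.card_le_card hsub
      _ = (⌊3 * X / d⌋₊ : ℝ) := by rw [Nat.card_Icc]; simp
      _ ≤ 3 * X / d := Nat.floor_le (by positivity)
  rw [e1]
  calc ∑ m ∈ S, |h m| ≤ S.card • (B * (2 * d / X)) := e2
    _ = (S.card : ℝ) * (B * (2 * d / X)) := nsmul_eq_mul _ _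
    _ ≤ (3 * X / d) * (B * (2 * d / X)) := mul_le_mul_of_nonneg_right e3 (by positivity)
    _ = 6 * B := by field_simp; ring

private theorem lvar_supp {φ : ℝ → ℝ} (hφ : Hoh.Bump φ) {X : ℝ} (hX : 1 ≤ X) {n : ℕ}
    (h : wt φ X n ≠ 0) : X < n ∧ (n : ℝ) < 3 * X := by
  have hX' : 0 < X := by linarith
  have hv : ¬ (Real.log (n / X) ≤ 1 / 20 ∨ 19 / 20 ≤ Real.log (n / X)) :=
    fun hh => h (hφ.zero _ hh)
  rw [not_or, not_le, not_le] at hv
  have hn : (n : ℝ) / X ≠ 0 := by
    intro h0
    rw [h0, Real.log_zero] at hv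
    linarith [hv.1]
  have hpos : 0 < (n : ℝ) / X := lt_of_le_of_ne (by positivity) (Ne.symm hn)
  constructor
  · have h1 : 1 < (n : ℝ) / X := by
      rw [← Real.log_pos_iff hpos.le]
      linarith [hv.1]
    rwa [lt_div_iff₀ hX', one_mul] at h1
  · have h1 : (n : ℝ) / X < 3 := by
      calc (n : ℝ) / X = Real.exp (Real.log (n / X)) := (Real.exp_log hpos).symm
        _ < Real.exp 1 := Real.exp_lt_exp.2 (by linarith [hv.2])
        _ < 3 := by linarith [Real.exp_one_lt_d9]
    rwa [div_lt_iff₀ hX'] at h1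

theorem VAR : VarStmt := by
  intro φ hφ
  obtain ⟨K0, hK0⟩ : ∃ C, LipschitzWith C φ := by
    refine ContDiff.lipschitzWith_of_hasCompactSupport (𝕂 := ℝ) ?_ hφ.smooth (by simp)
    exact HasCompactSupport.intro (isCompact_Icc (a := (1 / 20 : ℝ)) (b := 19 / 20)) (fun x hx => by
      apply hφ.zero
      rw [Set.mem_Icc, not_and_or, not_le, not_le] at hx
      exact hx.imp le_of_lt le_of_lt)
  set K : ℝ := NNReal.toReal K0 with hK
  have hKn : 0 ≤ K := NNReal.coe_nonneg K0
  have hlip : ∀ x y, |φ x - φ y| ≤ K * |x - y| := fun x y => by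
    have := hK0.dist_le_mul x y
    rwa [Real.dist_eq, Real.dist_eq] at this
  refine ⟨12 * K + 8, by positivity, fun X d N hX hd => ?_⟩
  have hX' : 0 < X := by linarith
  have hd' : (0 : ℝ) < d := by exact_mod_cast hd
  have hd1 : (1 : ℝ) ≤ d := by exact_mod_cast hd
  have hw1 : ∀ n, |wt φ X n| ≤ 1 := fun n => by
    rw [wt, abs_of_nonneg (hφ.nonneg _)]
    exact hφ.le_one _
  have hlX : 0 ≤ Real.log X := Real.log_nonneg hX
  -- differences of the logarithm
  have hlog : ∀ m : ℕ, 1 ≤ m → 0 ≤ Real.log ((m + 1 : ℕ) : ℝ) - Real.log (m : ℝ) ∧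
      Real.log ((m + 1 : ℕ) : ℝ) - Real.log (m : ℝ) ≤ 1 / m := by
    intro m hm
    have hm' : (0 : ℝ) < m := by exact_mod_cast hm
    constructor
    · rw [sub_nonneg]
      exact Real.log_le_log hm' (by push_cast; linarith)
    · rw [← Real.log_div (by positivity) hm'.ne']
      refine (Real.log_le_sub_one_of_pos (by positivity)).trans (le_of_eq ?_)
      push_cast
      field_simp
      ring
  have hdiff : ∀ m : ℕ, 1 ≤ m → |wt φ X (d * (m + 1)) - wt φ X (d * m)| ≤ K * (1 / m) := by
    intro m hm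
    have hm' : (0 : ℝ) < m := by exact_mod_cast hm
    refine (hlip _ _).trans (mul_le_mul_of_nonneg_left ?_ hKn)
    have h1 : Real.log (((d * (m + 1) : ℕ) : ℝ) / X) - Real.log (((d * m : ℕ) : ℝ) / X) =
        Real.log ((m + 1 : ℕ) : ℝ) - Real.log (m : ℝ) := by
      have a1 : ((m + 1 : ℕ) : ℝ) ≠ 0 := by positivity
      rw [Nat.cast_mul, Nat.cast_mul, Real.log_div (by positivity) hX'.ne',
        Real.log_div (by positivity) hX'.ne', Real.log_mul hd'.ne' a1,
        Real.log_mul hd'.ne' hm'.ne']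
      ring
    rw [h1, abs_of_nonneg (hlog m hm).1]
    exact (hlog m hm).2
  have hinv : ∀ m : ℕ, 1 ≤ m → X < (d : ℝ) * (m + 1) → (1 : ℝ) / m ≤ 2 * d / X := by
    intro m hm h
    have hm' : (1 : ℝ) ≤ m := by exact_mod_cast hm
    rw [div_le_div_iff₀ (by linarith) hX']
    nlinarith
  have hz : ∀ m : ℕ, 1 ≤ m → 3 * X ≤ (d : ℝ) * m →
      wt φ X (d * (m + 1)) = 0 ∧ wt φ X (d * m) = 0 := by
    intro m hm h
    constructor
    · by_contra hne
      have := (lvar_supp hφ hX hne).2
      push_cast at this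
      nlinarith
    · by_contra hne
      have := (lvar_supp hφ hX hne).2
      push_cast at this
      linarith
  have hz2 : ∀ m : ℕ, 1 ≤ m → ¬ X < (d : ℝ) * (m + 1) →
      wt φ X (d * (m + 1)) = 0 ∧ wt φ X (d * m) = 0 := by
    intro m hm h
    constructor
    · by_contra hne
      have := (lvar_supp hφ hX hne).1
      push_cast at this
      exact h this
    · by_contra hne
      have := (lvar_supp hφ hX hne).1
      push_cast at this
      exact h (by nlinarith)
  constructor
  · have h1 := lvar_sum (fun m => wt φ X (d * (m + 1)) - wt φ X (d * m)) K X hKn d N hX hd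
      (fun m hm h => by
        obtain ⟨a, b⟩ := hz m hm h
        beta_reduce
        rw [a, b, sub_zero])
      (fun m hm h => by
        by_cases hc : X < (d : ℝ) * (m + 1)
        · exact (hdiff m hm).trans (mul_le_mul_of_nonneg_left (hinv m hm hc) hKn)
        · obtain ⟨a, b⟩ := hz2 m hm hc
          beta_reduce
          rw [a, b, sub_zero, abs_zero]
          positivity)
    have h2 := hw1 (d * N)
    beta_reduce at h1
    linarith
  · have hB : 0 ≤ K * (2 + Real.log X) + 1 := by positivity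
    have h1 := lvar_sum (fun m => Real.log ((m + 1 : ℕ) : ℝ) * wt φ X (d * (m + 1)) -
      Real.log (m : ℝ) * wt φ X (d * m)) (K * (2 + Real.log X) + 1) X hB d N hX hd
      (fun m hm h => by
        obtain ⟨a, b⟩ := hz m hm h
        beta_reduce
        rw [a, b, mul_zero, mul_zero, sub_zero])
      (fun m hm h => by
        by_cases hc : X < (d : ℝ) * (m + 1)
        · beta_reduce
          have hm' : (1 : ℝ) ≤ m := by exact_mod_cast hm
          have e : Real.log ((m + 1 : ℕ) : ℝ) * wt φ X (d * (m + 1)) -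
              Real.log (m : ℝ) * wt φ X (d * m) =
              Real.log ((m + 1 : ℕ) : ℝ) * (wt φ X (d * (m + 1)) - wt φ X (d * m)) +
              (Real.log ((m + 1 : ℕ) : ℝ) - Real.log (m : ℝ)) * wt φ X (d * m) := by ring
          have l0 : 0 ≤ Real.log ((m + 1 : ℕ) : ℝ) := Real.log_natCast_nonneg _
          have l1 : Real.log ((m + 1 : ℕ) : ℝ) ≤ 2 + Real.log X := by
            have h6 : ((m + 1 : ℕ) : ℝ) ≤ 6 * X := by
              push_cast
              nlinarith
            calc Real.log ((m + 1 : ℕ) : ℝ) ≤ Real.log (6 * X) :=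
                  Real.log_le_log (by positivity) h6
              _ = Real.log 6 + Real.log X := Real.log_mul (by norm_num) hX'.ne'
              _ ≤ 2 + Real.log X := by
                have : Real.log 6 ≤ 2 := by
                  rw [Real.log_le_iff_le_exp (by norm_num)]
                  have h3 := Real.exp_one_gt_d9
                  have h4 : Real.exp 2 = Real.exp 1 * Real.exp 1 := by
                    rw [← Real.exp_add]; norm_num
                  rw [h4]
                  nlinarith
                linarith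
          rw [e]
          refine (abs_add_le _ _).trans ?_
          rw [abs_mul, abs_mul, abs_of_nonneg l0, abs_of_nonneg (hlog m hm).1]
          have t1 : Real.log ((m + 1 : ℕ) : ℝ) * |wt φ X (d * (m + 1)) - wt φ X (d * m)| ≤
              (2 + Real.log X) * (K * (1 / m)) :=
            mul_le_mul l1 (hdiff m hm) (abs_nonneg _) (by positivity)
          have t2 : (Real.log ((m + 1 : ℕ) : ℝ) - Real.log (m : ℝ)) * |wt φ X (d * m)| ≤
              1 / m * 1 :=
            mul_le_mul (hlog m hm).2 (hw1 _) (abs_nonneg _) (by positivity)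
          have t3 := mul_le_mul_of_nonneg_left (hinv m hm hc) hB
          calc _ ≤ (2 + Real.log X) * (K * (1 / m)) + 1 / m * 1 := add_le_add t1 t2
            _ = (K * (2 + Real.log X) + 1) * (1 / m) := by ring
            _ ≤ _ := t3
        · obtain ⟨a, b⟩ := hz2 m hm hc
          beta_reduce
          rw [a, b, mul_zero, mul_zero, sub_zero, abs_zero]
          positivity)
    beta_reduce at h1
    have h2 : |Real.log N * wt φ X (d * N)| ≤ 2 + Real.log X := by
      by_cases hN : wt φ X (d * N) = 0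
      · rw [hN, mul_zero, abs_zero]
        linarith
      · have h3 := lvar_supp hφ hX hN
        push_cast at h3
        have hNpos : (0 : ℝ) < N := by
          rcases Nat.eq_zero_or_pos N with h | h
          · exfalso
            rw [h] at h3
            simp at h3
            linarith
          · exact_mod_cast h
        have l0 : 0 ≤ Real.log (N : ℝ) := Real.log_natCast_nonneg _
        have l1 : Real.log (N : ℝ) ≤ 2 + Real.log X := by
          have h6 : (N : ℝ) ≤ 3 * X := by nlinarith
          calc Real.log (N : ℝ) ≤ Real.log (3 * X) := Real.log_le_log hNpos h6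
            _ = Real.log 3 + Real.log X := Real.log_mul (by norm_num) hX'.ne'
            _ ≤ 2 + Real.log X := by
              have : Real.log 3 ≤ 2 := by
                have := Real.log_le_sub_one_of_pos (show (0 : ℝ) < 3 by norm_num)
                linarith
              linarith
        rw [abs_mul, abs_of_nonneg l0]
        calc Real.log (N : ℝ) * |wt φ X (d * N)| ≤ (2 + Real.log X) * 1 :=
              mul_le_mul l1 (hw1 _) (abs_nonneg _) (by positivity)
          _ = 2 + Real.log X := mul_one _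
    nlinarith

end Pool.PrT
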