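import Pool.Agent.Lib.PrT.LVau
import Pool.Agent.Lib.PrT.LPar
import Pool.Agent.Lib.PrT.LVar
import Pool.Agent.Lib.PrT.LTypI
import Pool.Agent.Lib.PrT.LSep
import Pool.Agent.Lib.PrT.LTau
import Pool.Agent.Lib.PrT.LTypII
import Pool.Agent.Lib.PrT.LFin

/-!
# Group L, assembly
-/

set_option autoImplicit false

namespace Pool.PrT

/-- mean value of prime sums over the primitive characters of conductor `≤ X ^ (1/20)` -/
theorem FIN : FinStmt := FINp VAU (TYPI PAR VAR) (TYPII SEP TAU)

end Pool.PrT
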