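import Pool.Agent.Lib.PrT.LDefs

/-!
# LPsl: elementary properties of `PS`
-/

set_option autoImplicit false

namespace Pool.PrT

open Real

theorem PS_mono {R : ℕ} {F G : ∀ r : ℕ, DirichletCharacter ℂ r → ℝ}
    (h : ∀ r ∈ Finset.Icc 2 R, ∀ ψ : DirichletCharacter ℂ r, ψ.IsPrimitive → F r ψ ≤ G r ψ) :
    PS R F ≤ PS R G := by
  classical
  unfold PS
  refine Finset.sum_le_sum fun r hr => Finset.sum_le_sum fun ψ _ => ?_
  split_ifs with hp
  · exact h r hr ψ hp
  · exact le_rfl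

theorem PS_nonneg {R : ℕ} {F : ∀ r : ℕ, DirichletCharacter ℂ r → ℝ}
    (h : ∀ r ∈ Finset.Icc 2 R, ∀ ψ : DirichletCharacter ℂ r, ψ.IsPrimitive → 0 ≤ F r ψ) :
    0 ≤ PS R F := by
  classical
  unfold PS
  refine Finset.sum_nonneg fun r hr => Finset.sum_nonneg fun ψ _ => ?_
  split_ifs with hp
  · exact h r hr ψ hp
  · exact le_rfl

theorem PS_add (R : ℕ) (F G : ∀ r : ℕ, DirichletCharacter ℂ r → ℝ) :
    PS R (fun r ψ => F r ψ + G r ψ) = PS R F + PS R G := by
  classical
  unfold PS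
  rw [← Finset.sum_add_distrib]
  refine Finset.sum_congr rfl fun r _ => ?_
  rw [← Finset.sum_add_distrib]
  refine Finset.sum_congr rfl fun ψ _ => ?_
  split_ifs <;> simp

theorem PS_smul (R : ℕ) (c : ℝ) (F : ∀ r : ℕ, DirichletCharacter ℂ r → ℝ) :
    PS R (fun r ψ => c * F r ψ) = c * PS R F := by
  classical
  unfold PS
  rw [Finset.mul_sum]
  refine Finset.sum_congr rfl fun r _ => ?_
  rw [Finset.mul_sum]
  refine Finset.sum_congr rfl fun ψ _ => ?_
  split_ifs <;> simp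

theorem PS_sum {ι : Type*} (R : ℕ) (s : Finset ι) (F : ι → ∀ r : ℕ, DirichletCharacter ℂ r → ℝ) :
    PS R (fun r ψ => ∑ i ∈ s, F i r ψ) = ∑ i ∈ s, PS R (F i) := by
  classical
  unfold PS
  rw [Finset.sum_comm]
  refine Finset.sum_congr rfl fun r _ => ?_
  rw [Finset.sum_comm]
  refine Finset.sum_congr rfl fun ψ _ => ?_
  split_ifs <;> simp

theorem PS_le {R : ℕ} {F : ∀ r : ℕ, DirichletCharacter ℂ r → ℝ} {B : ℝ} (hB : 0 ≤ B)
    (h : ∀ r ∈ Finset.Icc 2 R, ∀ ψ : DirichletCharacter ℂ r, ψ.IsPrimitive → F r ψ ≤ B) :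
    PS R F ≤ (R : ℝ) ^ 2 * B := by
  classical
  unfold PS
  have h1 : ∀ r ∈ Finset.Icc 2 R, (∑ ψ : DirichletCharacter ℂ r, if ψ.IsPrimitive then F r ψ else 0)
      ≤ (R : ℝ) * B := by
    intro r hr
    have hr2 := (Finset.mem_Icc.1 hr).1
    have hrR := (Finset.mem_Icc.1 hr).2
    have : NeZero r := ⟨by omega⟩
    calc (∑ ψ : DirichletCharacter ℂ r, if ψ.IsPrimitive then F r ψ else 0)
        ≤ ∑ _ψ : DirichletCharacter ℂ r, B := by
          refine Finset.sum_le_sum fun ψ _ => ?_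
          split_ifs with hp
          · exact h r hr ψ hp
          · exact hB
      _ = (Fintype.card (DirichletCharacter ℂ r) : ℝ) * B := by
          rw [Finset.sum_const, nsmul_eq_mul, Finset.card_univ]
      _ ≤ (R : ℝ) * B := by
          refine mul_le_mul_of_nonneg_right ?_ hB
          have h2 : Fintype.card (DirichletCharacter ℂ r) = r.totient := by
            rw [← Nat.card_eq_fintype_card]
            exact DirichletCharacter.card_eq_totient_of_hasEnoughRootsOfUnity ℂ r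
          rw [h2]
          exact_mod_cast (Nat.totient_le r).trans hrR
  calc _ ≤ ∑ _r ∈ Finset.Icc 2 R, (R : ℝ) * B := Finset.sum_le_sum h1
    _ = ((Finset.Icc 2 R).card : ℝ) * ((R : ℝ) * B) := by rw [Finset.sum_const, nsmul_eq_mul]
    _ ≤ (R : ℝ) * ((R : ℝ) * B) := by
        refine mul_le_mul_of_nonneg_right ?_ (by positivity)
        rw [Nat.card_Icc]
        exact_mod_cast (by omega : R + 1 - 2 ≤ R)
    _ = _ := by ring

end Pool.PrT
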