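import Pool.Agent.Lib.PrT.LDefs

/-!
# LVau (about 110 lines): Vaughan's identity
ONLY MATHLIB. Work in the commutative ring `ArithmeticFunction ℝ` (or `ℂ`). Put
`μ₁ = ⟨fun n => if n ≤ V then μ n else 0⟩`, `μ₂ = μ - μ₁` (real valued, `μ = (moebius : ArithmeticFunction ℝ)`),
`Λ₁ = ⟨fun n => if n ≤ U then Λ n else 0⟩`, `Λ₂ = Λ - Λ₁`. From `vonMangoldt_mul_zeta : Λ * ζ = log`
and `coe_moebius_mul_coe_zeta` (`μ * ζ = 1`) one gets by `ring`/`linear_combination`
`Λ = Λ₁ + μ₁ * log - (μ₁ * Λ₁) * ζ + (μ₂ * ζ) * Λ₂`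
(expand `(μ - μ₁) * ζ * (Λ - Λ₁)`). Then for arithmetic functions `g, h` and `f` vanishing above `N`:
`∑_{n ∈ Icc 1 N} (g * h) n * f n = ∑_{b ∈ Icc 1 N} g b * ∑_{m ∈ Icc 1 N} h m * f (b * m)`.
-/

set_option autoImplicit false

namespace Pool.PrT

open Real

private lemma vau_conv (g h : ArithmeticFunction ℝ) (N : ℕ) (f : ℕ → ℂ)
    (hf : ∀ n, N < n → f n = 0) :
    ∑ n ∈ Finset.Icc 1 N, (((g * h) n : ℝ) : ℂ) * f n =
      ∑ b ∈ Finset.Icc 1 N, ((g b : ℝ) : ℂ) * ∑ m ∈ Finset.Icc 1 N, ((h m : ℝ) : ℂ) * f (b * m) := by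
  have h1 : ∀ n ∈ Finset.Icc 1 N, (((g * h) n : ℝ) : ℂ) * f n =
      ∑ x ∈ Finset.Icc 1 N ×ˢ Finset.Icc 1 N,
        if x.1 * x.2 = n then ((g x.1 : ℝ) : ℂ) * ((h x.2 : ℝ) : ℂ) * f (x.1 * x.2) else 0 := by
    intro n hn
    rw [Finset.mem_Icc] at hn
    rw [ArithmeticFunction.mul_apply, Complex.ofReal_sum, Finset.sum_mul, ← Finset.sum_filter]
    have hs : n.divisorsAntidiagonal =
        (Finset.Icc 1 N ×ˢ Finset.Icc 1 N).filter (fun x : ℕ × ℕ => x.1 * x.2 = n) := by
      ext x
      rw [Nat.mem_divisorsAntidiagonal, Finset.mem_filter, Finset.mem_product, Finset.mem_Icc,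
        Finset.mem_Icc]
      constructor
      · rintro ⟨hx, -⟩
        have h1 : 0 < x.1 := Nat.pos_of_ne_zero (fun h0 => by rw [h0] at hx; omega)
        have h2 : 0 < x.2 := Nat.pos_of_ne_zero (fun h0 => by rw [h0] at hx; omega)
        refine ⟨⟨⟨h1, ?_⟩, ⟨h2, ?_⟩⟩, hx⟩
        · nlinarith
        · nlinarith
      · rintro ⟨-, hx⟩
        exact ⟨hx, by omega⟩
    rw [hs]
    refine Finset.sum_congr rfl ?_
    intro x hx
    rw [Finset.mem_filter] at hx
    rw [hx.2, Complex.ofReal_mul]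
  rw [Finset.sum_congr rfl h1, Finset.sum_comm]
  have h2 : ∀ x ∈ Finset.Icc 1 N ×ˢ Finset.Icc 1 N, (∑ n ∈ Finset.Icc 1 N,
      if x.1 * x.2 = n then ((g x.1 : ℝ) : ℂ) * ((h x.2 : ℝ) : ℂ) * f (x.1 * x.2) else 0) =
      ((g x.1 : ℝ) : ℂ) * (((h x.2 : ℝ) : ℂ) * f (x.1 * x.2)) := by
    intro x hx
    rw [Finset.mem_product, Finset.mem_Icc, Finset.mem_Icc] at hx
    rw [Finset.sum_ite_eq]
    split_ifs with h0
    · ring
    · have h3 : 0 < x.1 * x.2 := Nat.mul_pos (by omega) (by omega)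
      have h4 : N < x.1 * x.2 := by
        by_contra h5
        exact h0 (Finset.mem_Icc.2 ⟨h3, by omega⟩)
      rw [hf _ h4, mul_zero, mul_zero]
  rw [Finset.sum_congr rfl h2, Finset.sum_product]
  refine Finset.sum_congr rfl ?_
  intro b _
  rw [Finset.mul_sum]

private lemma vau_trunc (A B : ℕ) (G : ℕ → ℂ) (hA : ∀ n, A < n → G n = 0)
    (hB : ∀ n, B < n → G n = 0) : ∑ n ∈ Finset.Icc 1 A, G n = ∑ n ∈ Finset.Icc 1 B, G n := by
  have key : ∀ C : ℕ, (∀ n, C < n → G n = 0) →
      ∑ n ∈ Finset.Icc 1 C, G n = ∑ n ∈ Finset.Icc 1 (max A B), G n ∨ max A B < C := by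
    intro C hC
    by_cases h : C ≤ max A B
    · left
      refine Finset.sum_subset (Finset.Icc_subset_Icc_right h) ?_
      intro x hx hx'
      rw [Finset.mem_Icc] at hx hx'
      exact hC x (by omega)
    · right
      omega
  rcases key A hA with h1 | h1
  · rcases key B hB with h2 | h2
    · rw [h1, h2]
    · exact absurd h2 (by omega)
  · exact absurd h1 (by omega)

private noncomputable def muA (V : ℕ) : ArithmeticFunction ℝ :=
  ⟨fun n => if n ≤ V then ((ArithmeticFunction.moebius : ArithmeticFunction ℤ) :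
    ArithmeticFunction ℝ) n else 0, by simp⟩

private noncomputable def laA (U : ℕ) : ArithmeticFunction ℝ :=
  ⟨fun n => if n ≤ U then ArithmeticFunction.vonMangoldt n else 0, by simp⟩

private lemma muA_apply (V n : ℕ) : muA V n = if n ≤ V then ((ArithmeticFunction.moebius n : ℤ) : ℝ)
    else 0 := rfl

private lemma laA_apply (U n : ℕ) : laA U n = if n ≤ U then ArithmeticFunction.vonMangoldt n
    else 0 := rfl

private noncomputable def muR : ArithmeticFunction ℝ :=
  ((ArithmeticFunction.moebius : ArithmeticFunction ℤ) : ArithmeticFunction ℝ)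

private noncomputable def zeR : ArithmeticFunction ℝ :=
  ((ArithmeticFunction.zeta : ArithmeticFunction ℕ) : ArithmeticFunction ℝ)

private lemma muR_apply (n : ℕ) : muR n = ((ArithmeticFunction.moebius n : ℤ) : ℝ) := rfl

private lemma zeR_apply (n : ℕ) (hn : 1 ≤ n) : zeR n = 1 := by
  have h : zeR n = ((ArithmeticFunction.zeta n : ℕ) : ℝ) := rfl
  rw [h, ArithmeticFunction.zeta_apply_ne (by omega)]
  norm_num

private lemma vau_ring (U V : ℕ) : ArithmeticFunction.vonMangoldt =
    laA U + muA V * ArithmeticFunction.log - (muA V * laA U) * zeR +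
      ((muR - muA V) * zeR) * (ArithmeticFunction.vonMangoldt - laA U) := by
  have h1 : ArithmeticFunction.vonMangoldt * zeR = ArithmeticFunction.log :=
    ArithmeticFunction.vonMangoldt_mul_zeta
  have h2 : muR * zeR = 1 := ArithmeticFunction.coe_moebius_mul_coe_zeta
  rw [← h1]
  linear_combination (-(ArithmeticFunction.vonMangoldt - laA U)) * h2

private lemma cUV_eq (U V d : ℕ) : (muA V * laA U) d = cUV U V d := by
  rw [ArithmeticFunction.mul_apply, cUV, Finset.sum_filter]
  refine Finset.sum_congr rfl ?_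
  intro x _
  rw [muA_apply, laA_apply]
  by_cases h1 : x.1 ≤ V <;> by_cases h2 : x.2 ≤ U <;> simp [h1, h2]

private lemma aV_eq (V m : ℕ) : ((muR - muA V) * zeR) m = aV V m := by
  have h : ((muR - muA V) * zeR) m = ∑ i ∈ m.divisors, (muR - muA V) i :=
    ArithmeticFunction.coe_mul_zeta_apply
  rw [h, aV, Finset.sum_filter]
  refine Finset.sum_congr rfl ?_
  intro x _
  have h3 : (muR - muA V) x = muR x - muA V x := rfl
  rw [h3, muR_apply, muA_apply]
  by_cases h1 : x ≤ V
  · simp [h1, not_lt.2 h1]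
  · simp [h1, not_le.1 h1]

theorem VAU : VauStmt := by
  intro U V N f hf
  have hsum : ∑ n ∈ Finset.Icc 1 N, (ArithmeticFunction.vonMangoldt n : ℂ) * f n =
      ∑ n ∈ Finset.Icc 1 N, ((laA U n : ℝ) : ℂ) * f n
      + ∑ n ∈ Finset.Icc 1 N, (((muA V * ArithmeticFunction.log) n : ℝ) : ℂ) * f n
      - ∑ n ∈ Finset.Icc 1 N, ((((muA V * laA U) * zeR) n : ℝ) : ℂ) * f n
      + ∑ n ∈ Finset.Icc 1 N, (((((muR - muA V) * zeR) *
          (ArithmeticFunction.vonMangoldt - laA U)) n : ℝ) : ℂ) * f n := by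
    rw [← Finset.sum_add_distrib, ← Finset.sum_sub_distrib, ← Finset.sum_add_distrib]
    refine Finset.sum_congr rfl ?_
    intro n _
    have h : ArithmeticFunction.vonMangoldt n = laA U n + (muA V * ArithmeticFunction.log) n
        - ((muA V * laA U) * zeR) n + (((muR - muA V) * zeR) *
          (ArithmeticFunction.vonMangoldt - laA U)) n := by
      have h0 := congrArg (fun F : ArithmeticFunction ℝ => F n) (vau_ring U V)
      exact h0
    rw [h]
    push_cast
    ring
  rw [hsum, vau_conv _ _ N f hf, vau_conv _ _ N f hf, vau_conv _ _ N f hf]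
  have hz : ∀ b, N < b → ∀ m, 1 ≤ m → f (b * m) = 0 := by
    intro b hb m hm
    exact hf _ (lt_of_lt_of_le hb (Nat.le_mul_of_pos_right b hm))
  have e1 : ∑ n ∈ Finset.Icc 1 N, ((laA U n : ℝ) : ℂ) * f n =
      ∑ n ∈ Finset.Icc 1 U, (ArithmeticFunction.vonMangoldt n : ℂ) * f n := by
    rw [vau_trunc N U (fun n => ((laA U n : ℝ) : ℂ) * f n)
      (fun n hn => by simp only [hf n hn, mul_zero])
      (fun n hn => by simp only [laA_apply, if_neg (not_le.2 hn), Complex.ofReal_zero, zero_mul])]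
    refine Finset.sum_congr rfl ?_
    intro n hn
    rw [Finset.mem_Icc] at hn
    simp only [laA_apply, if_pos hn.2]
  have e2 : ∑ b ∈ Finset.Icc 1 N, ((muA V b : ℝ) : ℂ) * ∑ m ∈ Finset.Icc 1 N,
        ((ArithmeticFunction.log m : ℝ) : ℂ) * f (b * m) =
      ∑ b ∈ Finset.Icc 1 V, (ArithmeticFunction.moebius b : ℂ) *
        ∑ m ∈ Finset.Icc 1 N, (Real.log m : ℂ) * f (b * m) := by
    rw [vau_trunc N V (fun b => ((muA V b : ℝ) : ℂ) * ∑ m ∈ Finset.Icc 1 N,
        ((ArithmeticFunction.log m : ℝ) : ℂ) * f (b * m)) ?_ ?_]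
    · refine Finset.sum_congr rfl ?_
      intro b hb
      rw [Finset.mem_Icc] at hb
      simp only [muA_apply, if_pos hb.2, ArithmeticFunction.log_apply, Complex.ofReal_intCast]
    · intro b hb
      have : ∑ m ∈ Finset.Icc 1 N, ((ArithmeticFunction.log m : ℝ) : ℂ) * f (b * m) = 0 := by
        refine Finset.sum_eq_zero ?_
        intro m hm
        rw [Finset.mem_Icc] at hm
        rw [hz b hb m hm.1, mul_zero]
      simp only [this, mul_zero]
    · intro b hb
      simp only [muA_apply, if_neg (not_le.2 hb), Complex.ofReal_zero, zero_mul]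
  have e3 : ∑ b ∈ Finset.Icc 1 N, (((muA V * laA U) b : ℝ) : ℂ) * ∑ m ∈ Finset.Icc 1 N,
        ((zeR m : ℝ) : ℂ) * f (b * m) =
      ∑ d ∈ Finset.Icc 1 (U * V), (cUV U V d : ℂ) * ∑ m ∈ Finset.Icc 1 N, f (d * m) := by
    have e3' : ∑ b ∈ Finset.Icc 1 N, (((muA V * laA U) b : ℝ) : ℂ) * ∑ m ∈ Finset.Icc 1 N,
        ((zeR m : ℝ) : ℂ) * f (b * m) =
        ∑ b ∈ Finset.Icc 1 N, (cUV U V b : ℂ) * ∑ m ∈ Finset.Icc 1 N, f (b * m) := by
      refine Finset.sum_congr rfl ?_
      intro b _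
      rw [cUV_eq]
      congr 1
      refine Finset.sum_congr rfl ?_
      intro m hm
      rw [Finset.mem_Icc] at hm
      rw [zeR_apply m hm.1, Complex.ofReal_one, one_mul]
    rw [e3']
    refine vau_trunc N (U * V) (fun b => (cUV U V b : ℂ) * ∑ m ∈ Finset.Icc 1 N, f (b * m)) ?_ ?_
    · intro b hb
      have : ∑ m ∈ Finset.Icc 1 N, f (b * m) = 0 := by
        refine Finset.sum_eq_zero ?_
        intro m hm
        rw [Finset.mem_Icc] at hm
        exact hz b hb m hm.1
      simp only [this, mul_zero]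
    · intro d hd
      have : cUV U V d = 0 := by
        rw [cUV]
        refine Finset.sum_eq_zero ?_
        intro x hx
        rw [Finset.mem_filter, Nat.mem_divisorsAntidiagonal] at hx
        exfalso
        have h1 : x.1 * x.2 ≤ V * U := Nat.mul_le_mul hx.2.1 hx.2.2
        rw [hx.1.1, Nat.mul_comm V U] at h1
        omega
      simp only [this, Complex.ofReal_zero, zero_mul]
  have e4 : ∑ b ∈ Finset.Icc 1 N, ((((muR - muA V) * zeR) b : ℝ) : ℂ) * ∑ m ∈ Finset.Icc 1 N,
        (((ArithmeticFunction.vonMangoldt - laA U) m : ℝ) : ℂ) * f (b * m) =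
      ∑ m ∈ Finset.Ioc V N, ∑ c ∈ Finset.Ioc U N,
        (aV V m : ℂ) * (ArithmeticFunction.vonMangoldt c : ℂ) * f (m * c) := by
    have hin : ∀ b, ∑ m ∈ Finset.Icc 1 N,
        (((ArithmeticFunction.vonMangoldt - laA U) m : ℝ) : ℂ) * f (b * m) =
        ∑ c ∈ Finset.Ioc U N, (ArithmeticFunction.vonMangoldt c : ℂ) * f (b * c) := by
      intro b
      have hsub : ∀ m, (ArithmeticFunction.vonMangoldt - laA U) m =
          ArithmeticFunction.vonMangoldt m - laA U m := fun m => rfl
      have hss : Finset.Ioc U N ⊆ Finset.Icc 1 N := by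
        intro c hc
        rw [Finset.mem_Ioc] at hc
        rw [Finset.mem_Icc]
        omega
      rw [← Finset.sum_subset hss]
      · refine Finset.sum_congr rfl ?_
        intro c hc
        rw [Finset.mem_Ioc] at hc
        rw [hsub, laA_apply, if_neg (not_le.2 hc.1), sub_zero]
      · intro c hc hc'
        rw [Finset.mem_Icc] at hc
        rw [Finset.mem_Ioc] at hc'
        have hcU : c ≤ U := by
          by_contra h
          exact hc' ⟨by omega, hc.2⟩
        rw [hsub, laA_apply, if_pos hcU, sub_self, Complex.ofReal_zero, zero_mul]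
    have hss : Finset.Ioc V N ⊆ Finset.Icc 1 N := by
      intro c hc
      rw [Finset.mem_Ioc] at hc
      rw [Finset.mem_Icc]
      omega
    rw [← Finset.sum_subset hss]
    · refine Finset.sum_congr rfl ?_
      intro b _
      rw [hin b, aV_eq, Finset.mul_sum]
      refine Finset.sum_congr rfl ?_
      intro c _
      ring
    · intro b hb hb'
      rw [Finset.mem_Icc] at hb
      rw [Finset.mem_Ioc] at hb'
      have hbV : b ≤ V := by
        by_contra h
        exact hb' ⟨by omega, hb.2⟩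
      have : aV V b = 0 := by
        rw [aV]
        refine Finset.sum_eq_zero ?_
        intro x hx
        rw [Finset.mem_filter, Nat.mem_divisors] at hx
        exfalso
        have := Nat.le_of_dvd (by omega) hx.1.1
        omega
      rw [aV_eq, this, Complex.ofReal_zero, zero_mul]
  rw [e1, e2, e3, e4]

end Pool.PrT
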